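import Pool.Agent.Lib_helper88.TutteHard.Net

/-!
# The Tutte polynomial and the partition function
-/

set_option autoImplicit false
set_option linter.unusedSectionVars false

namespace Pool.Agent.TutteHard

theorem sum_finset_succ {n : ℕ} (f : Finset (Fin (n + 1)) → ℝ) :
    ∑ A : Finset (Fin (n + 1)), f A =
      ∑ B : Finset (Fin n), (f (insert 0 (B.map (Fin.succEmb n))) + f (B.map (Fin.succEmb n))) := by
  classical
  have h0 : (0 : Fin (n + 1)) ∉ (Finset.univ : Finset (Fin n)).map (Fin.succEmb n) := by
    simp
  have h1 : (Finset.univ : Finset (Fin (n + 1))) =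
      insert 0 ((Finset.univ : Finset (Fin n)).map (Fin.succEmb n)) := by
    ext x
    simp only [Finset.mem_univ, Finset.mem_insert, Finset.mem_map, true_and, true_iff]
    refine Fin.cases (Or.inl rfl) (fun i => Or.inr ⟨i, rfl⟩) x
  have h2 : ∀ (m : ℕ), (Finset.univ : Finset (Finset (Fin m))) = Finset.powerset Finset.univ := by
    intro m
    rw [Finset.powerset_univ]
  rw [h2, h1, Finset.sum_powerset_insert h0, h2, ← Finset.sum_add_distrib]
  have h3 : Finset.powerset ((Finset.univ : Finset (Fin n)).map (Fin.succEmb n)) =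
      (Finset.powerset (Finset.univ : Finset (Fin n))).image
        (fun B => B.map (Fin.succEmb n)) := by
    ext C
    simp only [Finset.mem_powerset, Finset.mem_image, Finset.subset_univ, true_and]
    constructor
    · intro h
      rw [Finset.subset_map_iff] at h
      obtain ⟨B, _, hB⟩ := h
      exact ⟨B, hB.symm⟩
    · rintro ⟨B, rfl⟩
      exact Finset.map_subset_map.2 (Finset.subset_univ _)
  rw [h3, Finset.sum_image]
  · refine Finset.sum_congr rfl fun B _ => ?_
    ring
  · intro B _ C _ h
    exact Finset.map_injective _ h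

variable {α : Type}

theorem subEdges_insert (e : α × α) (G : List (α × α)) (B : Finset (Fin G.length)) :
    subEdges (e :: G) (insert 0 (B.map (Fin.succEmb G.length))) = e :: subEdges G B := by
  unfold subEdges
  simp only [List.length_cons, List.finRange_succ]
  rw [List.filter_cons_of_pos (by simp), List.map_cons, List.filter_map, List.map_map]
  congr 1
  congr 1
  apply List.filter_congr
  intro i _
  simp [Finset.mem_insert]

theorem subEdges_map (e : α × α) (G : List (α × α)) (B : Finset (Fin G.length)) :
    subEdges (e :: G) (B.map (Fin.succEmb G.length)) = subEdges G B := by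
  unfold subEdges
  simp only [List.length_cons, List.finRange_succ]
  rw [List.filter_cons_of_neg (by simp), List.filter_map, List.map_map]
  congr 1
  apply List.filter_congr
  intro i _
  simp

theorem subEdges_univ (G : List (α × α)) : subEdges G Finset.univ = G := by
  unfold subEdges
  rw [List.filter_eq_self.2 (fun i _ => by simp)]
  exact List.map_get_finRange G

theorem mem_subEdges {G : List (α × α)} {A : Finset (Fin G.length)} {e : α × α}
    (h : e ∈ subEdges G A) : e ∈ G := by
  unfold subEdges at h
  rw [List.mem_map] at h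
  obtain ⟨i, _, rfl⟩ := h
  exact List.get_mem _ _

theorem length_subEdges (G : List (α × α)) (A : Finset (Fin G.length)) :
    (subEdges G A).length = A.card := by
  unfold subEdges
  rw [List.length_map, ← List.toFinset_card_of_nodup ((List.nodup_finRange _).filter _)]
  congr 1
  ext i
  simp

/-- the partition function as a sum over sets of edges -/
theorem Z_eq_sum (q v : ℝ) (V : Finset α) (G : List (α × α)) (S : List (α × α)) :
    Z q V S (SP.wtd v G) =
      ∑ A : Finset (Fin G.length), v ^ A.card * q ^ comps V (subEdges G A ++ S) := by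
  induction G generalizing S with
  | nil =>
    have h1 : (Finset.univ : Finset (Finset (Fin ([] : List (α × α)).length))) = {∅} := by
      change (Finset.univ : Finset (Finset (Fin 0))) = {∅}
      rfl
    rw [h1, Finset.sum_singleton]
    simp [SP.wtd, Z_nil, subEdges]
  | cons e G ih =>
    have h1 : SP.wtd v (e :: G) = (e, v) :: SP.wtd v G := rfl
    rw [h1, Z_cons, ih, ih]
    have h2 := sum_finset_succ (n := G.length) (fun A => v ^ A.card *
      q ^ comps V (subEdges (e :: G) A ++ S))
    refine Eq.trans ?_ h2.symm
    rw [Finset.sum_add_distrib, Finset.mul_sum]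
    congr 1
    · refine Finset.sum_congr rfl fun B _ => ?_
      rw [subEdges_insert, Finset.card_insert_of_notMem (by simp), Finset.card_map,
        comps_congr (S := subEdges G B ++ e :: S) (T := e :: subEdges G B ++ S)]
      · ring
      · intro f
        simp only [List.mem_cons, List.mem_append]
        tauto
    · refine Finset.sum_congr rfl fun B _ => ?_
      rw [subEdges_map, Finset.card_map]

theorem endsIn_verts [DecidableEq α] (G : List (α × α)) : EndsIn (verts G) G := by
  intro e he
  unfold verts
  simp only [List.mem_toFinset, List.mem_append, List.mem_map]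
  exact ⟨Or.inl ⟨e, he, rfl⟩, Or.inr ⟨e, he, rfl⟩⟩

theorem mem_verts [DecidableEq α] (G : List (α × α)) (x : α) :
    x ∈ verts G ↔ ∃ e ∈ G, x = e.1 ∨ x = e.2 := by
  unfold verts
  simp only [List.mem_toFinset, List.mem_append, List.mem_map]
  constructor
  · rintro (⟨e, he, rfl⟩ | ⟨e, he, rfl⟩)
    · exact ⟨e, he, Or.inl rfl⟩
    · exact ⟨e, he, Or.inr rfl⟩
  · rintro ⟨e, he, h | h⟩
    · exact Or.inl ⟨e, he, h.symm⟩
    · exact Or.inr ⟨e, he, h.symm⟩

/-- removing edges increases the number of components -/
theorem comps_mono {V : Finset α} {S T : List (α × α)} (h : ∀ e ∈ S, e ∈ T)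
    (hT : EndsIn V T) : comps V T ≤ comps V S := by
  have h1 := comps_append_le (S := S) T hT
  rw [comps_congr (S := T ++ S) (T := T)] at h1
  · exact h1.1
  · intro e
    rw [List.mem_append]
    constructor
    · rintro (h' | h')
      · exact h'
      · exact h e h'
    · exact Or.inl

theorem comps_le_card {V : Finset α} {S : List (α × α)} (hS : EndsIn V S) :
    comps V S ≤ V.card ∧ V.card ≤ comps V S + S.length := by
  have h1 := comps_append_le (S := []) S hS
  rwa [List.append_nil, comps_nil] at h1

/-- the partition function and the Tutte polynomial -/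
theorem tutte_eq_Z [DecidableEq α] (G : List (α × α)) (x y : ℝ) :
    (x - 1) ^ comps (verts G) G * (y - 1) ^ (verts G).card * tutte G x y =
      Z ((x - 1) * (y - 1)) (verts G) [] (SP.wtd (y - 1) G) := by
  rw [Z_eq_sum, tutte, Finset.mul_sum]
  refine Finset.sum_congr rfl fun A _ => ?_
  rw [List.append_nil]
  have hE := endsIn_verts G
  have h1 := comps_le_card (V := verts G) (S := subEdges G A) (fun e he => hE e (mem_subEdges he))
  have h2 := comps_mono (V := verts G) (S := subEdges G A) (T := G)
    (fun e he => mem_subEdges he) hE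
  have h3 := (comps_le_card hE).1
  rw [length_subEdges] at h1
  unfold rank
  rw [subEdges_univ]
  set k := comps (verts G) (subEdges G A)
  set K := comps (verts G) G
  set n := (verts G).card
  have e1 : n - K - (n - k) = k - K := by omega
  rw [e1]
  have e2 : n + (A.card - (n - k)) = A.card + k := by omega
  calc (x - 1) ^ K * (y - 1) ^ n * ((x - 1) ^ (k - K) * (y - 1) ^ (A.card - (n - k)))
      = (x - 1) ^ (K + (k - K)) * (y - 1) ^ (n + (A.card - (n - k))) := by
        rw [pow_add, pow_add]; ring
    _ = (y - 1) ^ A.card * ((x - 1) * (y - 1)) ^ k := by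
        rw [e2, show K + (k - K) = k by omega, pow_add, mul_pow]; ring

/-! ### renaming the vertices -/

section
variable {β : Type} [DecidableEq β]

/-- the graph with its vertices renamed -/
def ren (f : α → β) (G : List (α × α)) : List (β × β) := G.map (Prod.map f f)

theorem comps_ren {f : α → β} (hf : Function.Injective f) (V : Finset α) (S : List (α × α)) :
    comps (V.image f) (ren f S) = comps V S := by
  classical
  unfold comps
  have h0 : ∀ y : {y // y ∈ V.image f}, ∃ x : {x // x ∈ V}, f x = y := by
    rintro ⟨y, hy⟩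
    obtain ⟨x, hx, rfl⟩ := Finset.mem_image.1 hy
    exact ⟨⟨x, hx⟩, rfl⟩
  choose g hg using h0
  symm
  refine card_quot_eq _ _ (fun x : {x // x ∈ V} =>
    (⟨f x, Finset.mem_image_of_mem f x.2⟩ : {y // y ∈ V.image f})) g ?_ ?_ ?_ ?_
  · intro u w h
    refine Relation.EqvGen.rel _ _ ?_
    exact List.mem_map.2 ⟨((u : α), (w : α)), h, rfl⟩
  · intro u w h
    refine Relation.EqvGen.rel _ _ ?_
    obtain ⟨e, he, h2⟩ := List.mem_map.1 h
    have h3 : f e.1 = u := congrArg Prod.fst h2
    have h4 : f e.2 = w := congrArg Prod.snd h2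
    rw [← hg u] at h3
    rw [← hg w] at h4
    have h5 : e = (((g u : {x // x ∈ V}) : α), ((g w : {x // x ∈ V}) : α)) :=
      Prod.ext (hf h3) (hf h4)
    rw [← h5]
    exact he
  · intro x
    have : g ⟨f x, Finset.mem_image_of_mem f x.2⟩ = x := Subtype.ext (hf (hg _))
    rw [this]
    exact Relation.EqvGen.refl _
  · intro y
    have : (⟨f (g y), Finset.mem_image_of_mem f (g y).2⟩ : {y // y ∈ V.image f}) = y :=
      Subtype.ext (hg y)
    rw [this]
    exact Relation.EqvGen.refl _

theorem Z_ren (q v : ℝ) {f : α → β} (hf : Function.Injective f) {V : Finset α} :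
    ∀ (G S : List (α × α)), EndsIn V G → EndsIn V S →
      Z q (V.image f) (ren f S) (SP.wtd v (ren f G)) = Z q V S (SP.wtd v G)
  | [], S, _, _ => by
    have h1 : SP.wtd v (ren f ([] : List (α × α))) = [] := rfl
    have h2 : SP.wtd v ([] : List (α × α)) = [] := rfl
    rw [h1, h2, Z_nil, Z_nil, comps_ren hf V S]
  | e :: G, S, hG, hS => by
    have he := hG e List.mem_cons_self
    have hG' : EndsIn V G := fun g hg => hG g (List.mem_cons_of_mem _ hg)
    have h1 : SP.wtd v (ren f (e :: G)) = (Prod.map f f e, v) :: SP.wtd v (ren f G) := rfl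
    have h2 : SP.wtd v (e :: G) = (e, v) :: SP.wtd v G := rfl
    have h3 := Z_ren q v hf G (e :: S) hG' (hS.cons he.1 he.2)
    have h4 : ren f (e :: S) = Prod.map f f e :: ren f S := rfl
    rw [h4] at h3
    rw [h1, h2, Z_cons, Z_cons, h3, Z_ren q v hf G S hG' hS]

theorem verts_ren [DecidableEq α] (f : α → β) (G : List (α × α)) :
    verts (ren f G) = (verts G).image f := by
  ext x
  rw [mem_verts, Finset.mem_image]
  constructor
  · rintro ⟨e, he, h⟩
    obtain ⟨g, hg, rfl⟩ := List.mem_map.1 he
    rcases h with rfl | rfl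
    · exact ⟨g.1, (mem_verts G _).2 ⟨g, hg, Or.inl rfl⟩, rfl⟩
    · exact ⟨g.2, (mem_verts G _).2 ⟨g, hg, Or.inr rfl⟩, rfl⟩
  · rintro ⟨a, ha, rfl⟩
    obtain ⟨g, hg, h⟩ := (mem_verts G _).1 ha
    refine ⟨Prod.map f f g, List.mem_map.2 ⟨g, hg, rfl⟩, ?_⟩
    rcases h with rfl | rfl
    · exact Or.inl rfl
    · exact Or.inr rfl

end

end Pool.Agent.TutteHard
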