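import Pool.Agent.Lib_helper88.TutteHard.Defs

/-!
# Counting connected components
-/

set_option autoImplicit false

namespace Pool.Agent.TutteHard

open Relation

theorem eqv_of_quot {X : Type*} {r : X → X → Prop} {a b : X} (h : Quot.mk r a = Quot.mk r b) :
    EqvGen r a b := Quot.eqvGen_exact h

theorem quot_of_eqv {X : Type*} {r : X → X → Prop} {a b : X} (h : EqvGen r a b) :
    Quot.mk r a = Quot.mk r b := Quot.eqvGen_sound h

theorem card_quot_eq {X Y : Type*} (r : X → X → Prop) (r' : Y → Y → Prop) (f : X → Y) (g : Y → X)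
    (hf : ∀ u w, r u w → EqvGen r' (f u) (f w)) (hg : ∀ u w, r' u w → EqvGen r (g u) (g w))
    (hgf : ∀ x, EqvGen r (g (f x)) x) (hfg : ∀ y, EqvGen r' (f (g y)) y) :
    Nat.card (Quot r) = Nat.card (Quot r') := by
  refine Nat.card_congr
    { toFun := Quot.lift (fun x => Quot.mk r' (f x)) (fun u w h => quot_of_eqv (hf u w h))
      invFun := Quot.lift (fun y => Quot.mk r (g y)) (fun u w h => quot_of_eqv (hg u w h))
      left_inv := ?_
      right_inv := ?_ }
  · intro x
    induction x using Quot.ind
    exact quot_of_eqv (hgf _)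
  · intro x
    induction x using Quot.ind
    exact quot_of_eqv (hfg _)

variable {α : Type} [DecidableEq α]

/-- the relation on the vertices given by the edges -/
abbrev rel (V : Finset α) (S : List (α × α)) : {x // x ∈ V} → {x // x ∈ V} → Prop :=
  fun u w => ((u : α), (w : α)) ∈ S

/-- all end vertices lie in `V` -/
def EndsIn (V : Finset α) (S : List (α × α)) : Prop := ∀ e ∈ S, e.1 ∈ V ∧ e.2 ∈ V

omit [DecidableEq α] in
theorem EndsIn.cons {V : Finset α} {S : List (α × α)} {e : α × α} (h : EndsIn V S)
    (h1 : e.1 ∈ V) (h2 : e.2 ∈ V) : EndsIn V (e :: S) := by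
  intro f hf
  rcases List.mem_cons.1 hf with rfl | hf
  · exact ⟨h1, h2⟩
  · exact h f hf

omit [DecidableEq α] in
theorem comps_congr {V : Finset α} {S T : List (α × α)} (h : ∀ e, e ∈ S ↔ e ∈ T) :
    comps V S = comps V T := by
  unfold comps
  have : (fun u w : {x // x ∈ V} => ((u : α), (w : α)) ∈ S) =
      fun u w : {x // x ∈ V} => ((u : α), (w : α)) ∈ T := by
    funext u w
    exact propext (h _)
  rw [this]

omit [DecidableEq α] in
theorem comps_nil (V : Finset α) : comps V ([] : List (α × α)) = V.card := by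
  unfold comps
  rw [← Fintype.card_coe V, ← Nat.card_eq_fintype_card]
  refine Nat.card_congr
    { toFun := Quot.lift id (fun u w h => absurd h List.not_mem_nil)
      invFun := Quot.mk _
      left_inv := ?_
      right_inv := fun _ => rfl }
  intro x
  induction x using Quot.ind
  rfl

/-- a new vertex is a component of its own -/
theorem comps_insert {V : Finset α} {S : List (α × α)} (hS : EndsIn V S) {z : α} (hz : z ∉ V) :
    comps (insert z V) S = comps V S + 1 := by
  unfold comps
  rw [← Finite.card_option]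
  refine Nat.card_congr
    { toFun := Quot.lift (fun x : {x // x ∈ insert z V} =>
        if h : (x : α) ∈ V then some (Quot.mk (rel V S) ⟨x, h⟩) else none) ?_
      invFun := fun o => match o with
        | none => Quot.mk _ ⟨z, Finset.mem_insert_self z V⟩
        | some q => Quot.lift (fun x : {x // x ∈ V} =>
            Quot.mk (rel (insert z V) S) ⟨x, Finset.mem_insert_of_mem x.2⟩) (fun u w h =>
              Quot.sound h) q
      left_inv := ?_
      right_inv := ?_ }
  · intro u w h
    have := hS _ h
    simp only at this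
    rw [dif_pos this.1, dif_pos this.2]
    exact congrArg some (Quot.sound h)
  · intro q
    induction q using Quot.ind with
    | mk x =>
      obtain ⟨x, hx⟩ := x
      simp only
      by_cases h : x ∈ V
      · simp only [h, dite_true]
      · have hxz : x = z := by
          rcases Finset.mem_insert.1 hx with h1 | h1
          · exact h1
          · exact absurd h1 h
        subst hxz
        simp only [h, dite_false]
  · intro o
    cases o with
    | none => simp only [hz, dite_false]
    | some q =>
      induction q using Quot.ind with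
      | mk x => simp only [x.2, dite_true]

/-- the inclusion of vertex sets -/
def incl {V W : Finset α} (h : V ⊆ W) (x : {x // x ∈ V}) : {x // x ∈ W} := ⟨x, h x.2⟩

omit [DecidableEq α] in
theorem eqv_incl {V W : Finset α} (h : V ⊆ W) {S T : List (α × α)} (hST : ∀ e ∈ S, e ∈ T)
    {u w : {x // x ∈ V}} (hr : EqvGen (rel V S) u w) :
    EqvGen (rel W T) (incl h u) (incl h w) := by
  induction hr with
  | rel x y hxy => exact EqvGen.rel _ _ (hST _ hxy)
  | refl x => exact EqvGen.refl _
  | symm x y _ ih => exact EqvGen.symm _ _ ih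
  | trans x y z _ _ ih1 ih2 => exact EqvGen.trans _ _ _ ih1 ih2

/-- replacing the new vertex `z` by `a` -/
def retr {V : Finset α} {a z : α} (ha : a ∈ V) (x : {x // x ∈ insert z V}) : {x // x ∈ V} :=
  if h : (x : α) ∈ V then ⟨x, h⟩ else ⟨a, ha⟩

theorem retr_of_mem {V : Finset α} {a z : α} (ha : a ∈ V) {x : α} (hx : x ∈ insert z V)
    (h : x ∈ V) : retr (z := z) ha ⟨x, hx⟩ = ⟨x, h⟩ := by
  unfold retr
  rw [dif_pos h]

theorem retr_self {V : Finset α} {a z : α} (ha : a ∈ V) (hz : z ∉ V) (hx : z ∈ insert z V) :
    retr ha ⟨z, hx⟩ = ⟨a, ha⟩ := by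
  unfold retr
  rw [dif_neg hz]

/-- a general removal of a vertex `z`, attached to `a` -/
theorem comps_retr {V : Finset α} {S T : List (α × α)} {a z : α} (ha : a ∈ V) (hz : z ∉ V)
    (hT : EndsIn (insert z V) T)
    (h1 : ∀ u w : α, (u, w) ∈ S → (u, w) ∈ T ∨ ∃ (hu : u ∈ insert z V) (hw : w ∈ insert z V),
      EqvGen (rel (insert z V) T) ⟨u, hu⟩ ⟨w, hw⟩)
    (h2 : ∀ u w : α, u ∈ V → w ∈ V → (u, w) ∈ T → (u, w) ∈ S)
    (h3 : ∀ u : α, (hu : u ∈ V) → (u, z) ∈ T → EqvGen (rel V S) ⟨u, hu⟩ ⟨a, ha⟩)
    (h4 : ∀ w : α, (hw : w ∈ V) → (z, w) ∈ T → EqvGen (rel V S) ⟨a, ha⟩ ⟨w, hw⟩)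
    (h5 : (a, z) ∈ T ∨ (z, a) ∈ T) :
    comps (insert z V) T = comps V S := by
  have hi : V ⊆ insert z V := Finset.subset_insert z V
  refine card_quot_eq (rel (insert z V) T) (rel V S) (retr ha) (incl hi) ?_ ?_ ?_ ?_
  · rintro ⟨u, hu⟩ ⟨w, hw⟩ h
    change (u, w) ∈ T at h
    by_cases huV : u ∈ V <;> by_cases hwV : w ∈ V
    · rw [retr_of_mem ha hu huV, retr_of_mem ha hw hwV]
      exact EqvGen.rel _ _ (h2 u w huV hwV h)
    · have : w = z := by
        rcases Finset.mem_insert.1 hw with h1 | h1
        · exact h1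
        · exact absurd h1 hwV
      subst this
      rw [retr_of_mem ha hu huV, retr_self ha hz]
      exact h3 u huV h
    · have : u = z := by
        rcases Finset.mem_insert.1 hu with h1 | h1
        · exact h1
        · exact absurd h1 huV
      subst this
      rw [retr_of_mem ha hw hwV, retr_self ha hz]
      exact h4 w hwV h
    · have h6 : u = z := by
        rcases Finset.mem_insert.1 hu with h1 | h1
        · exact h1
        · exact absurd h1 huV
      have h7 : w = z := by
        rcases Finset.mem_insert.1 hw with h1 | h1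
        · exact h1
        · exact absurd h1 hwV
      subst h6
      subst h7
      exact EqvGen.refl _
  · rintro ⟨u, hu⟩ ⟨w, hw⟩ h
    rcases h1 u w h with h | ⟨hu', hw', h⟩
    · exact EqvGen.rel _ _ h
    · exact h
  · rintro ⟨x, hx⟩
    by_cases hxV : x ∈ V
    · rw [retr_of_mem ha hx hxV]
      exact EqvGen.refl _
    · have : x = z := by
        rcases Finset.mem_insert.1 hx with h1 | h1
        · exact h1
        · exact absurd h1 hxV
      subst this
      rw [retr_self ha hz]
      rcases h5 with h5 | h5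
      · exact EqvGen.rel _ _ h5
      · exact EqvGen.symm _ _ (EqvGen.rel _ _ h5)
  · rintro ⟨x, hx⟩
    have : incl hi ⟨x, hx⟩ = ⟨x, hi hx⟩ := rfl
    rw [this, retr_of_mem ha _ hx]
    exact EqvGen.refl _

theorem comps_leaf {V : Finset α} {S : List (α × α)} (hS : EndsIn V S) {a z : α} (ha : a ∈ V)
    (hz : z ∉ V) : comps (insert z V) ((a, z) :: S) = comps V S := by
  refine comps_retr ha hz ?_ ?_ ?_ ?_ ?_ ?_
  · refine EndsIn.cons (fun e he => ?_) (Finset.mem_insert_of_mem ha) (Finset.mem_insert_self _ _)
    exact ⟨Finset.mem_insert_of_mem (hS e he).1, Finset.mem_insert_of_mem (hS e he).2⟩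
  · intro u w h
    exact Or.inl (List.mem_cons_of_mem _ h)
  · intro u w _ hw h
    rcases List.mem_cons.1 h with h | h
    · simp only [Prod.mk.injEq] at h
      exact absurd (h.2 ▸ hw) hz
    · exact h
  · intro u hu h
    rcases List.mem_cons.1 h with h | h
    · simp only [Prod.mk.injEq, and_true] at h
      subst h
      exact EqvGen.refl _
    · exact absurd (hS _ h).2 hz
  · intro w hw h
    rcases List.mem_cons.1 h with h | h
    · simp only [Prod.mk.injEq] at h
      exact absurd (h.2 ▸ hw) hz
    · exact absurd (hS _ h).1 hz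
  · exact Or.inl (by simp)

theorem comps_leaf' {V : Finset α} {S : List (α × α)} (hS : EndsIn V S) {b z : α} (hb : b ∈ V)
    (hz : z ∉ V) : comps (insert z V) ((z, b) :: S) = comps V S := by
  refine comps_retr hb hz ?_ ?_ ?_ ?_ ?_ ?_
  · refine EndsIn.cons (fun e he => ?_) (Finset.mem_insert_self _ _) (Finset.mem_insert_of_mem hb)
    exact ⟨Finset.mem_insert_of_mem (hS e he).1, Finset.mem_insert_of_mem (hS e he).2⟩
  · intro u w h
    exact Or.inl (List.mem_cons_of_mem _ h)
  · intro u w hu _ h
    rcases List.mem_cons.1 h with h | h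
    · simp only [Prod.mk.injEq] at h
      exact absurd (h.1 ▸ hu) hz
    · exact h
  · intro u hu h
    rcases List.mem_cons.1 h with h | h
    · simp only [Prod.mk.injEq] at h
      exact absurd (h.1 ▸ hu) hz
    · exact absurd (hS _ h).2 hz
  · intro w hw h
    rcases List.mem_cons.1 h with h | h
    · simp only [Prod.mk.injEq, true_and] at h
      subst h
      exact EqvGen.refl _
    · exact absurd (hS _ h).1 hz
  · exact Or.inr (by simp)

theorem comps_series {V : Finset α} {S : List (α × α)} (hS : EndsIn V S) {a b z : α} (ha : a ∈ V)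
    (hb : b ∈ V) (hz : z ∉ V) :
    comps (insert z V) ((z, b) :: (a, z) :: S) = comps V ((a, b) :: S) := by
  refine comps_retr ha hz ?_ ?_ ?_ ?_ ?_ ?_
  · refine EndsIn.cons (EndsIn.cons (fun e he => ?_) (Finset.mem_insert_of_mem ha)
      (Finset.mem_insert_self _ _)) (Finset.mem_insert_self _ _) (Finset.mem_insert_of_mem hb)
    exact ⟨Finset.mem_insert_of_mem (hS e he).1, Finset.mem_insert_of_mem (hS e he).2⟩
  · intro u w h
    rcases List.mem_cons.1 h with h | h
    · simp only [Prod.mk.injEq] at h
      obtain ⟨rfl, rfl⟩ := h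
      refine Or.inr ⟨Finset.mem_insert_of_mem ha, Finset.mem_insert_of_mem hb, ?_⟩
      refine EqvGen.trans _ ⟨z, Finset.mem_insert_self _ _⟩ _ (EqvGen.rel _ _ ?_)
        (EqvGen.rel _ _ ?_)
      · simp [rel]
      · simp [rel]
    · exact Or.inl (List.mem_cons_of_mem _ (List.mem_cons_of_mem _ h))
  · intro u w hu hw h
    rcases List.mem_cons.1 h with h | h
    · simp only [Prod.mk.injEq] at h
      exact absurd (h.1 ▸ hu) hz
    · rcases List.mem_cons.1 h with h | h
      · simp only [Prod.mk.injEq] at h
        exact absurd (h.2 ▸ hw) hz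
      · exact List.mem_cons_of_mem _ h
  · intro u hu h
    rcases List.mem_cons.1 h with h | h
    · simp only [Prod.mk.injEq] at h
      exact absurd (h.1 ▸ hu) hz
    · rcases List.mem_cons.1 h with h | h
      · simp only [Prod.mk.injEq, and_true] at h
        subst h
        exact EqvGen.refl _
      · exact absurd (hS _ h).2 hz
  · intro w hw h
    rcases List.mem_cons.1 h with h | h
    · simp only [Prod.mk.injEq, true_and] at h
      subst h
      exact EqvGen.rel _ _ (by simp [rel])
    · rcases List.mem_cons.1 h with h | h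
      · simp only [Prod.mk.injEq] at h
        exact absurd (h.2 ▸ hw) hz
      · exact absurd (hS _ h).1 hz
  · exact Or.inl (by simp)

omit [DecidableEq α] in
/-- adding an edge inside a component -/
theorem comps_cons_of_eqv {V : Finset α} {S : List (α × α)} {a b : α} (ha : a ∈ V) (hb : b ∈ V)
    (h : EqvGen (rel V S) ⟨a, ha⟩ ⟨b, hb⟩) : comps V ((a, b) :: S) = comps V S := by
  refine card_quot_eq (rel V ((a, b) :: S)) (rel V S) id id ?_ ?_ ?_ ?_
  · rintro ⟨u, hu⟩ ⟨w, hw⟩ h'
    rcases List.mem_cons.1 h' with h' | h'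
    · simp only [Prod.mk.injEq] at h'
      obtain ⟨rfl, rfl⟩ := h'
      exact h
    · exact EqvGen.rel _ _ h'
  · intro u w h'
    exact EqvGen.rel _ _ (List.mem_cons_of_mem _ h')
  · intro x; exact EqvGen.refl _
  · intro x; exact EqvGen.refl _

omit [DecidableEq α] in
/-- adding an edge between two components -/
theorem comps_cons_of_not_eqv {V : Finset α} {S : List (α × α)} {a b : α} (ha : a ∈ V)
    (hb : b ∈ V) (h : ¬ EqvGen (rel V S) ⟨a, ha⟩ ⟨b, hb⟩) :
    comps V S = comps V ((a, b) :: S) + 1 := by
  classical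
  unfold comps
  rw [← Finite.card_option]
  have hab : Quot.mk (rel V S) ⟨a, ha⟩ ≠ Quot.mk (rel V S) ⟨b, hb⟩ :=
    fun e => h (eqv_of_quot e)
  have hTab : Quot.mk (rel V ((a, b) :: S)) ⟨a, ha⟩ = Quot.mk (rel V ((a, b) :: S)) ⟨b, hb⟩ :=
    Quot.sound (by simp [rel])
  have hST : ∀ {x y : {x // x ∈ V}}, Quot.mk (rel V S) x = Quot.mk (rel V S) y →
      Quot.mk (rel V ((a, b) :: S)) x = Quot.mk (rel V ((a, b) :: S)) y := by
    intro x y hxy
    exact quot_of_eqv (eqv_incl (Finset.Subset.refl V)
      (fun e he => List.mem_cons_of_mem _ he) (eqv_of_quot hxy))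
  refine Nat.card_congr
    { toFun := Quot.lift (fun x => if Quot.mk (rel V S) x = Quot.mk (rel V S) ⟨b, hb⟩ then none
        else some (Quot.mk (rel V ((a, b) :: S)) x)) ?_
      invFun := fun o => match o with
        | none => Quot.mk (rel V S) ⟨b, hb⟩
        | some q => Quot.lift (fun x : {x // x ∈ V} =>
            if Quot.mk (rel V S) x = Quot.mk (rel V S) ⟨b, hb⟩ then Quot.mk (rel V S) ⟨a, ha⟩
            else Quot.mk (rel V S) x) ?_ q
      left_inv := ?_
      right_inv := ?_ }
  · intro u w huw
    have e1 : Quot.mk (rel V S) u = Quot.mk (rel V S) w := Quot.sound huw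
    simp only [e1, hST e1]
  · rintro ⟨u, hu⟩ ⟨w, hw⟩ huw
    rcases List.mem_cons.1 huw with h' | h'
    · simp only [Prod.mk.injEq] at h'
      obtain ⟨rfl, rfl⟩ := h'
      simp only [hab, if_false, if_true]
    · have e1 : Quot.mk (rel V S) ⟨u, hu⟩ = Quot.mk (rel V S) ⟨w, hw⟩ := Quot.sound h'
      simp only [e1]
  · intro q
    induction q using Quot.ind with
    | mk x =>
      by_cases hx : Quot.mk (rel V S) x = Quot.mk (rel V S) ⟨b, hb⟩
      · simp only [hx, if_true]
      · simp only [hx, if_false]
  · intro o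
    cases o with
    | none => simp only [if_true]
    | some q =>
      induction q using Quot.ind with
      | mk x =>
        by_cases hx : Quot.mk (rel V S) x = Quot.mk (rel V S) ⟨b, hb⟩
        · simp only [hx, if_true, hab, if_false]
          rw [hTab, ← hST hx]
        · simp only [hx, if_false]

omit [DecidableEq α] in
theorem comps_cons_le {V : Finset α} {S : List (α × α)} {a b : α} (ha : a ∈ V) (hb : b ∈ V) :
    comps V ((a, b) :: S) ≤ comps V S ∧ comps V S ≤ comps V ((a, b) :: S) + 1 := by
  by_cases h : EqvGen (rel V S) ⟨a, ha⟩ ⟨b, hb⟩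
  · rw [comps_cons_of_eqv ha hb h]
    omega
  · have := comps_cons_of_not_eqv ha hb h
    omega

omit [DecidableEq α] in
theorem comps_append_le {V : Finset α} {S : List (α × α)} (T : List (α × α)) (hT : EndsIn V T) :
    comps V (T ++ S) ≤ comps V S ∧ comps V S ≤ comps V (T ++ S) + T.length := by
  induction T with
  | nil => simp
  | cons e T ih =>
    obtain ⟨a, b⟩ := e
    have h1 := ih (fun f hf => hT f (List.mem_cons_of_mem _ hf))
    have h2 := hT (a, b) List.mem_cons_self
    have h3 : comps V ((a, b) :: (T ++ S)) ≤ comps V (T ++ S) ∧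
        comps V (T ++ S) ≤ comps V ((a, b) :: (T ++ S)) + 1 := comps_cons_le h2.1 h2.2
    have h4 : (a, b) :: T ++ S = (a, b) :: (T ++ S) := rfl
    rw [h4, List.length_cons]
    generalize comps V ((a, b) :: (T ++ S)) = x at h3 ⊢
    generalize comps V (T ++ S) = y at h1 h3 ⊢
    omega

/-- enlarging the vertex set -/
theorem comps_union {V : Finset α} {S : List (α × α)} (hS : EndsIn V S) (I : Finset α)
    (hI : Disjoint V I) : comps (V ∪ I) S = comps V S + I.card := by
  induction I using Finset.induction_on with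
  | empty => simp
  | insert z I hz ih =>
    have h1 : Disjoint V I := Finset.disjoint_of_subset_right (Finset.subset_insert _ _) hI
    have h2 : z ∉ V := fun h => Finset.disjoint_left.1 hI h (Finset.mem_insert_self _ _)
    rw [Finset.union_insert, comps_insert (V := V ∪ I) ?_ ?_, ih h1,
      Finset.card_insert_of_notMem hz]
    · rfl
    · intro e he
      exact ⟨Finset.mem_union_left _ (hS e he).1, Finset.mem_union_left _ (hS e he).2⟩
    · rw [Finset.mem_union]
      tauto

end Pool.Agent.TutteHard
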