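import Mathlib
import Pool.Prelude.Def_H_3587d628

/-!
# The Tutte polynomial of a multigraph, approximation schemes, minimum cuts

A multigraph is given by the list of its edges, each edge being the pair of its end vertices; loops
and repeated edges are allowed. Isolated vertices do not change the Tutte polynomial, so they are
not recorded.
-/

set_option autoImplicit false

namespace Pool.Agent.TutteHard

/-- the vertices of a multigraph given by its list of edges -/
def verts {α : Type} [DecidableEq α] (G : List (α × α)) : Finset α :=
  (G.map Prod.fst ++ G.map Prod.snd).toFinset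

/-- the edges of `G` whose index lies in `A` -/
def subEdges {α : Type} (G : List (α × α)) (A : Finset (Fin G.length)) : List (α × α) :=
  ((List.finRange G.length).filter (fun i => i ∈ A)).map G.get

/-- the number of connected components of the graph with vertex set `V` and edge list `S`:
the number of classes of the equivalence relation on `V` generated by the edges -/
noncomputable def comps {α : Type} (V : Finset α) (S : List (α × α)) : ℕ :=
  Nat.card (Quot fun u w : {x // x ∈ V} => ((u : α), (w : α)) ∈ S)

/-- the rank `|V| - k(A)` of a set `A` of edges of `G` -/
noncomputable def rank {α : Type} [DecidableEq α] (G : List (α × α))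
    (A : Finset (Fin G.length)) : ℕ :=
  (verts G).card - comps (verts G) (subEdges G A)

/-- the Tutte polynomial
`T(G; x, y) = ∑_A (x-1)^(r(E)-r(A)) (y-1)^(|A|-r(A))`, over all sets `A` of edges -/
noncomputable def tutte {α : Type} [DecidableEq α] (G : List (α × α)) (x y : ℝ) : ℝ :=
  ∑ A : Finset (Fin G.length),
    (x - 1) ^ (rank G Finset.univ - rank G A) * (y - 1) ^ (A.card - rank G A)

/-- the vertices `s` and `t` lie in the same connected component of the graph with edge list `S` -/
def Conn {α : Type} (S : List (α × α)) (s t : α) : Prop :=
  Relation.EqvGen (fun u w => (u, w) ∈ S) s t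

/-- `F` is an `(s,t)`-cut: removing the edges in `F` disconnects `s` from `t` -/
def IsCut {α : Type} (G : List (α × α)) (s t : α) (F : Finset (Fin G.length)) : Prop :=
  ¬ Conn (subEdges G Fᶜ) s t

/-- the number of `(s,t)`-cuts of minimum cardinality -/
noncomputable def numMinCuts {α : Type} (G : List (α × α)) (s t : α) : ℕ :=
  Nat.card {F : Finset (Fin G.length) // IsCut G s t F ∧
    ∀ F' : Finset (Fin G.length), IsCut G s t F' → F.card ≤ F'.card}

/-- vertices are named by bit strings -/
abbrev Vx : Type := List Bool

/-- multigraphs as inputs of algorithms: lists of edges, the vertices being bit strings -/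
abbrev MGraph : Type := List (Vx × Vx)

/-- the length of the input string that encodes `a` -/
def size {α : Type} [N487b59b3 α] (a : α) : ℕ := (N487b59b3.bitEncode a).length

/-- the probability that a uniformly random string of `n` bits has the property `P` -/
noncomputable def prob (n : ℕ) (P : List Bool → Prop) : ℝ :=
  (Nat.card {r : Fin n → Bool // P (List.ofFn r)} : ℝ) / 2 ^ n

/-- `T(·; x, y)` has a fully polynomial randomised approximation scheme: a polynomial-time machine
`A` which, given a multigraph `G`, a string `e` (the accuracy `ε = 1 / (|e| + 2)` in unary) and a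
random string `r` of polynomial length, outputs with probability at least `3/4` a rational number
between `exp (-ε) * T(G; x, y)` and `exp ε * T(G; x, y)` -/
def HasFPRAS (x y : ℝ) : Prop :=
  ∃ (A : (MGraph × List Bool) × List Bool → ℚ) (p : Polynomial ℕ), N68a2faeb.IsPolyTime A ∧
    ∀ (G : MGraph) (e : List Bool), 3 / 4 ≤ prob (p.eval (size (G, e))) (fun r =>
      ((A ((G, e), r) : ℚ) : ℝ) ∈ Set.uIcc (Real.exp (-(1 / (e.length + 2))) * tutte G x y)
        (Real.exp (1 / (e.length + 2)) * tutte G x y))

/-- the function `f` is computed exactly by a polynomial-time randomised algorithm, with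
probability at least `3/4` on every input -/
def RandPolyExact {α : Type} [N487b59b3 α] (f : α → ℕ) : Prop :=
  ∃ (B : α × List Bool → ℕ) (p : Polynomial ℕ), N68a2faeb.IsPolyTime B ∧
    ∀ a : α, 3 / 4 ≤ prob (p.eval (size a)) (fun r => B (a, r) = f a)

end Pool.Agent.TutteHard
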