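import Mathlib

/-!
# Escaping from the square by series and parallel operations
-/

set_option autoImplicit false

namespace Pool.Agent.TutteHard

/-- a set of nonzero weights closed under the parallel and the series operation -/
structure Closed (q : ℝ) (S : Set ℝ) : Prop where
  ne : ∀ a ∈ S, a ≠ 0
  par : ∀ a ∈ S, ∀ b ∈ S, (1 + a) * (1 + b) - 1 ≠ 0 → (1 + a) * (1 + b) - 1 ∈ S
  ser : ∀ a ∈ S, ∀ b ∈ S, q + a + b ≠ 0 → a * b / (q + a + b) ∈ S

theorem Closed.dual {q : ℝ} {S : Set ℝ} (hq : q ≠ 0) (h : Closed q S) :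
    Closed q {b | b ≠ 0 ∧ q / b ∈ S} where
  ne := fun a ha => ha.1
  par := by
    rintro a ⟨ha, haS⟩ b ⟨hb, hbS⟩ h0
    refine ⟨h0, ?_⟩
    have h1 : q + q / a + q / b = q * ((1 + a) * (1 + b) - 1) / (a * b) := by
      field_simp
      ring
    have h2 : q + q / a + q / b ≠ 0 := by
      rw [h1]
      exact div_ne_zero (mul_ne_zero hq h0) (mul_ne_zero ha hb)
    have h3 := h.ser _ haS _ hbS h2
    have h4 : q / a * (q / b) / (q + q / a + q / b) = q / ((1 + a) * (1 + b) - 1) := by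
      rw [h1]
      field_simp
    rwa [h4] at h3
  ser := by
    rintro a ⟨ha, haS⟩ b ⟨hb, hbS⟩ h0
    refine ⟨div_ne_zero (mul_ne_zero ha hb) h0, ?_⟩
    have h1 : (1 + q / a) * (1 + q / b) - 1 = q * (q + a + b) / (a * b) := by
      field_simp
      ring
    have h2 : (1 + q / a) * (1 + q / b) - 1 ≠ 0 := by
      rw [h1]
      exact div_ne_zero (mul_ne_zero hq h0) (mul_ne_zero ha hb)
    have h3 := h.par _ haS _ hbS h2
    rw [h1] at h3
    have h4 : q / (a * b / (q + a + b)) = q * (q + a + b) / (a * b) := by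
      field_simp
    rwa [h4]

/-- the series connection of two equal weights `u` -/
noncomputable def gg (q u : ℝ) : ℝ := u ^ 2 / (q + 2 * u)

theorem Closed.gg_mem {q : ℝ} {S : Set ℝ} (h : Closed q S) {u : ℝ} (hu : u ∈ S)
    (h0 : q + 2 * u ≠ 0) : gg q u ∈ S := by
  have h1 := h.ser u hu u hu (by intro h2; apply h0; linarith)
  have h2 : u * u / (q + u + u) = gg q u := by
    unfold TutteHard.gg
    rw [show q + u + u = q + 2 * u by ring, sq]
  rwa [h2] at h1

/-- `gg` is decreasing between `-q` and `-q/2` -/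
theorem gg_lt {q u w : ℝ} (h1 : -q < u) (h2 : u < w) (h3 : q + 2 * w < 0) :
    gg q w < gg q u := by
  unfold gg
  have h4 : q + 2 * u < 0 := by linarith
  have hw : w < 0 := by linarith
  have hu : u < 0 := by linarith
  have h5 : w ^ 2 / (q + 2 * w) - u ^ 2 / (q + 2 * u) =
      ((w - u) * (w * (q + u) + u * (q + w))) / ((q + 2 * w) * (q + 2 * u)) := by
    rw [div_sub_div _ _ h3.ne h4.ne]
    congr 1
    ring
  have h6 : w ^ 2 / (q + 2 * w) - u ^ 2 / (q + 2 * u) < 0 := by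
    rw [h5]
    apply div_neg_of_neg_of_pos
    · apply mul_neg_of_pos_of_neg
      · linarith
      · have := mul_neg_of_neg_of_pos hw (show 0 < q + u by linarith)
        have := mul_neg_of_neg_of_pos hu (show 0 < q + w by linarith)
        linarith
    · exact mul_pos_of_neg_of_neg h3 h4
  linarith

/-- `f b = b ^ 2 (b + 2)` is increasing to the left of `-4/3` -/
theorem cub_le {a b : ℝ} (h2 : a ≤ b) (h3 : b < -4 / 3) :
    a ^ 2 * (a + 2) ≤ b ^ 2 * (b + 2) := by
  have h4 : b ^ 2 * (b + 2) - a ^ 2 * (a + 2) = (b - a) * (b ^ 2 + a * b + a ^ 2 + 2 * a + 2 * b) := by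
    ring
  have h5 : 0 ≤ b ^ 2 + a * b + a ^ 2 + 2 * a + 2 * b := by
    nlinarith [mul_nonneg (show 0 ≤ -4 / 3 - a by linarith) (show 0 ≤ -4 / 3 - b by linarith),
      sq_nonneg (a - b), sq_nonneg (a + 4 / 3), sq_nonneg (b + 4 / 3)]
  nlinarith [mul_nonneg (show 0 ≤ b - a by linarith) h5]

/-- the double-edge diamond moves the weight down by a definite amount -/
theorem gg_step {q b v : ℝ} (hq : 0 < q) (hb : -2 < b) (hbv : b ≤ v) (hv : v < -4 / 3)
    (hqv : v ^ 2 * (v + 2) < q) (h0 : q + 2 * (b * (b + 2)) < 0) :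
    gg q (b * (b + 2)) ≤ b - 2 / 3 * (q - v ^ 2 * (v + 2)) := by
  have hf := cub_le hbv hv
  unfold gg
  rw [div_le_iff_of_neg h0]
  have h1 : (b - 2 / 3 * (q - v ^ 2 * (v + 2))) * (q + 2 * (b * (b + 2))) - (b * (b + 2)) ^ 2 =
      b * (q - b ^ 2 * (b + 2)) - 2 / 3 * (q - v ^ 2 * (v + 2)) * (q + 2 * (b * (b + 2))) := by
    ring
  set d := q - v ^ 2 * (v + 2) with hd
  have hd0 : 0 < d := by linarith
  have h2 : d ≤ q - b ^ 2 * (b + 2) := by linarith
  have h3 : b * (q - b ^ 2 * (b + 2)) ≤ b * d := mul_le_mul_of_nonpos_left h2 (by linarith)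
  have h4 : b * d ≤ -4 / 3 * d := mul_le_mul_of_nonneg_right (by linarith) hd0.le
  have h5 : -2 < q + 2 * (b * (b + 2)) := by nlinarith [sq_nonneg (b + 1)]
  have h6 : -2 * d ≤ (q + 2 * (b * (b + 2))) * d := mul_le_mul_of_nonneg_right h5.le hd0.le
  nlinarith

theorem Closed.pos_of_lt {q : ℝ} {S : Set ℝ} (h : Closed q S) {a : ℝ} (ha : a ∈ S)
    (h2 : a < -2) : ∃ w ∈ S, 0 < w := by
  have h3 : 0 < (1 + a) * (1 + a) - 1 := by nlinarith
  exact ⟨_, h.par a ha a ha h3.ne', h3⟩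

theorem Closed.par_self {q : ℝ} {S : Set ℝ} (h : Closed q S) {a : ℝ} (ha : a ∈ S)
    (h1 : -2 < a) (h2 : a < 0) : a * (a + 2) ∈ S := by
  have h3 : (1 + a) * (1 + a) - 1 = a * (a + 2) := by ring
  have h4 : a * (a + 2) < 0 := mul_neg_of_neg_of_pos h2 (by linarith)
  have h5 := h.par a ha a ha (by rw [h3]; exact h4.ne)
  rwa [h3] at h5

theorem Closed.pos_of_gt {q : ℝ} {S : Set ℝ} (h : Closed q S) {a : ℝ} (ha : a ∈ S)
    (h1 : -2 < a) (h2 : a < 0) (h3 : 0 < q + 2 * (a * (a + 2))) : ∃ w ∈ S, 0 < w := by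
  have h4 := h.par_self ha h1 h2
  refine ⟨_, h.gg_mem h4 h3.ne', ?_⟩
  unfold gg
  have h5 : a * (a + 2) ≠ 0 := h.ne _ h4
  positivity

theorem Closed.pos_of_two {q : ℝ} {S : Set ℝ} (h : Closed q S) {b : ℝ} (hc : (-2 : ℝ) ∈ S)
    (hb : b ∈ S) (h1 : -2 < b) (h2 : b < -2 + q / 2) : ∃ w ∈ S, 0 < w := by
  have h3 : (1 + (-2 : ℝ)) * (1 + b) - 1 = -2 - b := by ring
  have h4 : (-2 - b) ≠ 0 := by intro h5; linarith
  have h5 := h.par _ hc b hb (by rw [h3]; exact h4)
  rw [h3] at h5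
  have h6 : 0 < q + 2 * (-2 - b) := by linarith
  refine ⟨_, h.gg_mem h5 h6.ne', ?_⟩
  unfold gg
  positivity

/-- when the new weight is exactly `-2`, the old one is close to `-2` -/
theorem close_of_eq {q a b : ℝ} (hq : 0 < q) (hq2 : q ≤ 32 / 27) (ha : -2 < a) (hab : a ≤ b)
    (hb : b < -4 / 3) (h : gg q ((1 + a) * (1 + b) - 1) = -2)
    (h0 : q + 2 * ((1 + a) * (1 + b) - 1) < 0) : a < -2 + q / 2 := by
  obtain ⟨u, hu⟩ : ∃ u, u = (1 + a) * (1 + b) - 1 := ⟨_, rfl⟩
  rw [← hu] at h h0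
  unfold gg at h
  rw [div_eq_iff h0.ne] at h
  have hq' : q = -(u * (u + 4)) / 2 := by nlinarith
  have hu0 : u < 0 := by linarith
  have hu1 : -1 < u := by
    have := mul_pos (show 0 < -(1 + a) by linarith) (show 0 < -(1 + b) by linarith)
    nlinarith
  -- `u ≥ -0.73`
  have hu2 : -3 / 4 < u := by
    by_contra hcon
    have : u ≤ -3 / 4 := not_lt.1 hcon
    nlinarith [mul_nonneg (show 0 ≤ -3 / 4 - u by linarith) (show 0 ≤ u + 1 by linarith)]
  have hy : 1 + u ≤ (1 + a) ^ 2 := by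
    have : (1 + a) * (1 + b) ≤ (1 + a) * (1 + a) :=
      mul_le_mul_of_nonpos_left (by linarith) (by linarith)
    nlinarith
  have hp : (1 - q / 2) ^ 2 < 1 + u := by
    have e1 : 1 - q / 2 = (1 + u / 2) ^ 2 := by rw [hq']; ring
    rw [e1]
    have e2 : 1 + u - ((1 + u / 2) ^ 2) ^ 2 = -u * (1 + 3 / 2 * u + u ^ 2 / 2 + u ^ 3 / 16) := by
      ring
    have e3 : 0 < 1 + 3 / 2 * u + u ^ 2 / 2 + u ^ 3 / 16 := by
      nlinarith [mul_pos (show 0 < u + 3 / 4 by linarith) (show 0 < u + 1 by linarith),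
        mul_pos (mul_pos (show 0 < u + 3 / 4 by linarith) (show 0 < u + 1 by linarith))
          (show 0 < -u by linarith), sq_nonneg u]
    have e4 : 0 < -u * (1 + 3 / 2 * u + u ^ 2 / 2 + u ^ 3 / 16) :=
      mul_pos (by linarith) e3
    linarith
  have h3 : (1 - q / 2) ^ 2 < (-(1 + a)) ^ 2 := by
    calc (1 - q / 2) ^ 2 < 1 + u := hp
      _ ≤ (1 + a) ^ 2 := hy
      _ = (-(1 + a)) ^ 2 := by ring
  have h4 := lt_of_pow_lt_pow_left₀ 2 (by linarith) h3
  linarith

/-- the iteration -/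
theorem Closed.iterate {q v : ℝ} {S : Set ℝ} (h : Closed q S) (hq : 0 < q) (hq2 : q ≤ 32 / 27)
    (hv : v < -4 / 3) (hqv : v ^ 2 * (v + 2) < q) (n : ℕ) :
    ∀ a b : ℝ, a ∈ S → b ∈ S → -2 < a → a < b → b ≤ v → q + 2 * (b * (b + 2)) < 0 →
      gg q (b * (b + 2)) ≤ a →
      a + b + 4 ≤ n * (2 / 3 * (q - v ^ 2 * (v + 2))) → ∃ w ∈ S, 0 < w := by
  induction n with
  | zero =>
    intro a b _ _ h1 h2 _ _ _ h5
    simp only [CharP.cast_eq_zero, zero_mul] at h5
    linarith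
  | succ n ih =>
    intro a b ha hb h1 h2 h3 h4 h5 h6
    have hb2 : -2 < b := h1.trans h2
    by_cases hA : 0 < q + 2 * (a * (a + 2))
    · exact h.pos_of_gt ha h1 (by linarith) hA
    have hA' : q + 2 * (a * (a + 2)) ≤ 0 := not_lt.1 hA
    have hya : 0 < -(1 + a) := by linarith
    have hyb : 0 < -(1 + b) := by linarith
    have e1 : (1 + a) * (1 + b) - 1 < a * (a + 2) := by
      nlinarith [mul_pos hya (show 0 < b - a by linarith)]
    have e2 : b * (b + 2) < (1 + a) * (1 + b) - 1 := by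
      nlinarith [mul_pos hyb (show 0 < b - a by linarith)]
    have e3 : q + 2 * ((1 + a) * (1 + b) - 1) < 0 := by linarith
    have e4 : -q < b * (b + 2) := by
      have hf := cub_le h3 hv
      nlinarith [mul_pos (mul_pos (show 0 < -b by linarith) hyb) (show 0 < b + 2 by linarith)]
    have hu0 : (1 + a) * (1 + b) - 1 ≠ 0 := by
      intro h0
      rw [h0] at e3
      linarith
    have hu := h.par a ha b hb hu0
    have hc := h.gg_mem hu e3.ne
    have hlt := gg_lt e4 e2 e3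
    have hstep := gg_step hq hb2 h3 hv hqv h4
    -- the new weight
    rcases lt_trichotomy (gg q ((1 + a) * (1 + b) - 1)) (-2) with hlt2 | heq | hgt
    · exact h.pos_of_lt hc hlt2
    · rw [heq] at hc
      exact h.pos_of_two hc ha h1 (close_of_eq hq hq2 h1 h2.le (by linarith) heq e3)
    · by_cases hA2 : q + 2 * (a * (a + 2)) = 0
      · -- the next weight escapes
        have hlt3 : gg q ((1 + a) * (1 + b) - 1) < a := lt_of_lt_of_le hlt h5
        refine h.pos_of_gt hc hgt (by linarith) ?_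
        set c := gg q ((1 + a) * (1 + b) - 1)
        nlinarith [mul_pos (show 0 < a - c by linarith) (show 0 < -(a + c + 2) by linarith)]
      · have hA3 : q + 2 * (a * (a + 2)) < 0 := lt_of_le_of_ne hA' hA2
        have hlt4 := gg_lt (show -q < (1 + a) * (1 + b) - 1 by linarith) e1 hA3
        have hlt3 : gg q ((1 + a) * (1 + b) - 1) < a := lt_of_lt_of_le hlt h5
        refine ih _ a hc ha hgt hlt3 (h2.le.trans h3) hA3 hlt4.le ?_
        push_cast at h6
        linarith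

/-- a positive weight exists -/
theorem Closed.exists_pos {q v : ℝ} {S : Set ℝ} (h : Closed q S) (hq : 0 < q)
    (hq2 : q ≤ 32 / 27) (hvS : v ∈ S) (hv1 : -2 < v) (hv : v < -4 / 3)
    (hqv : v ^ 2 * (v + 2) < q) (h0 : q + 2 * (v * (v + 2)) ≠ 0) : ∃ w ∈ S, 0 < w := by
  rcases lt_or_gt_of_ne h0 with h1 | h1
  · have hu := h.par_self hvS hv1 (by linarith)
    have hc := h.gg_mem hu h0
    have hstep := gg_step hq hv1 le_rfl hv hqv h1
    have hlt : gg q (v * (v + 2)) < v := by linarith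
    rcases lt_trichotomy (gg q (v * (v + 2))) (-2) with hlt2 | heq | hgt
    · exact h.pos_of_lt hc hlt2
    · have e1 : v * (v + 2) = (1 + v) * (1 + v) - 1 := by ring
      rw [heq] at hc
      refine h.pos_of_two hc hvS hv1 (close_of_eq hq hq2 hv1 le_rfl hv ?_ ?_)
      · rw [← e1]; exact heq
      · rw [← e1]; exact h1
    · obtain ⟨n, hn⟩ := exists_nat_ge ((gg q (v * (v + 2)) + v + 4) /
        (2 / 3 * (q - v ^ 2 * (v + 2))))
      refine h.iterate hq hq2 hv hqv n _ v hc hvS hgt hlt le_rfl h1 le_rfl ?_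
      rwa [div_le_iff₀ (by linarith)] at hn
  · exact h.pos_of_gt hvS hv1 (by linarith) h1

theorem Closed.series_pow {q w : ℝ} {S : Set ℝ} (h : Closed q S) (hq : 0 < q) (hw : 0 < w)
    (hwS : w ∈ S) (n : ℕ) : q / ((1 + q / w) ^ (n + 1) - 1) ∈ S := by
  have hx : 1 < 1 + q / w := by
    have := div_pos hq hw
    linarith
  induction n with
  | zero =>
    have : q / ((1 + q / w) ^ (0 + 1) - 1) = w := by
      have e : (1 + q / w) ^ (0 + 1) - 1 = q / w := by ring
      rw [e, div_div_cancel₀ hq.ne']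
    rwa [this]
  | succ n ih =>
    have h1 : 1 < (1 + q / w) ^ (n + 1) := one_lt_pow₀ hx (by omega)
    have h2 : 0 < q / ((1 + q / w) ^ (n + 1) - 1) := div_pos hq (by linarith)
    have h3 := h.ser _ ih w hwS (by linarith)
    have h4 : q / ((1 + q / w) ^ (n + 1) - 1) * w / (q + q / ((1 + q / w) ^ (n + 1) - 1) + w) =
        q / ((1 + q / w) ^ (n + 1 + 1) - 1) := by
      rw [pow_succ (1 + q / w) (n + 1)]
      set X := (1 + q / w) ^ (n + 1)
      have h5 : X - 1 ≠ 0 := by intro h; linarith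
      have h6 : X * (1 + q / w) - 1 ≠ 0 := by
        have : 1 < X * (1 + q / w) := by nlinarith
        intro h; linarith
      have h7 : X * (w + q) - w ≠ 0 := by
        intro h7
        apply h6
        field_simp
        linarith
      have h8 : q + q / (X - 1) + w ≠ 0 := by intro h; linarith
      rw [div_eq_div_iff h8 h6]
      field_simp
      ring
    rwa [h4] at h3

theorem Closed.par_pow {q s v : ℝ} {S : Set ℝ} (h : Closed q S) (hs : 0 < s) (hsS : s ∈ S)
    (hvS : v ∈ S) (hv : v < -1) (n : ℕ) : (1 + s) ^ n * (1 + v) - 1 ∈ S := by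
  induction n with
  | zero => simpa using hvS
  | succ n ih =>
    have h1 : 0 < (1 + s) ^ n := by positivity
    have h2 : (1 + s) ^ n * (1 + v) < 0 := mul_neg_of_pos_of_neg h1 (by linarith)
    have h3 : (1 + s) * (1 + ((1 + s) ^ n * (1 + v) - 1)) - 1 = (1 + s) ^ (n + 1) * (1 + v) - 1 := by
      ring
    have h4 := h.par s hsS _ ih (by rw [h3, pow_succ]; nlinarith)
    rwa [h3] at h4

/-- a weight in the Goldberg-Jerrum region -/
theorem Closed.exists_target {q v : ℝ} {S : Set ℝ} (h : Closed q S) (hq : 0 < q)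
    (hq2 : q ≤ 32 / 27) (hvS : v ∈ S) (hv1 : -2 < v) (hv : v < -4 / 3)
    (hqv : v ^ 2 * (v + 2) < q) (h0 : q + 2 * (v * (v + 2)) ≠ 0) :
    ∃ w ∈ S, -2 < w ∧ w < -1 ∧ 0 < q + 2 * (w * (w + 2)) := by
  obtain ⟨w, hwS, hw⟩ := h.exists_pos hq hq2 hvS hv1 hv hqv h0
  have hx : 1 < 1 + q / w := by
    have := div_pos hq hw
    linarith
  -- a small positive weight
  have hsmall : ∃ s ∈ S, 0 < s ∧ s < q / 8 := by
    obtain ⟨n, hn⟩ := pow_unbounded_of_one_lt 9 hx
    refine ⟨_, h.series_pow hq hw hwS n, ?_, ?_⟩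
    · have h1 : 1 < (1 + q / w) ^ (n + 1) := one_lt_pow₀ hx (by omega)
      exact div_pos hq (by linarith)
    · have h1 : 9 < (1 + q / w) ^ (n + 1) := by
        refine hn.trans_le (pow_le_pow_right₀ hx.le (by omega))
      exact div_lt_div_of_pos_left hq (by norm_num) (by linarith)
  obtain ⟨s, hsS, hs0, hs⟩ := hsmall
  set ρ := 1 + s with hρ
  have hρ1 : 1 < ρ := by linarith
  have hy : 0 < -(1 + v) := by linarith
  have hex : ∃ n : ℕ, 1 ≤ ρ ^ n * (-(1 + v)) := by
    obtain ⟨n, hn⟩ := pow_unbounded_of_one_lt (1 / (-(1 + v))) hρ1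
    refine ⟨n, ?_⟩
    rw [div_lt_iff₀ hy] at hn
    exact hn.le
  classical
  set N := Nat.find hex with hN
  have hN1 : 1 ≤ ρ ^ N * (-(1 + v)) := Nat.find_spec hex
  have hN0 : N ≠ 0 := by
    intro h0
    rw [h0, pow_zero] at hN1
    linarith
  obtain ⟨M, hM⟩ := Nat.exists_eq_succ_of_ne_zero hN0
  have hM1 : ρ ^ M * (-(1 + v)) < 1 := not_le.1 (Nat.find_min hex (by omega : M < N))
  rw [hM, Nat.succ_eq_add_one, pow_succ] at hN1
  refine ⟨ρ ^ M * (1 + v) - 1, h.par_pow hs0 hsS hvS (by linarith) M, by linarith, ?_, ?_⟩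
  · have : ρ ^ M * (1 + v) < 0 := mul_neg_of_pos_of_neg (by positivity) (by linarith)
    linarith
  · set Y := ρ ^ M * (-(1 + v)) with hY
    have e1 : ρ ^ M * (1 + v) = -Y := by rw [hY]; ring
    rw [e1]
    have hY0 : 0 < Y := by positivity
    have hY2 : 1 ≤ Y * ρ := by rw [hY]; linarith
    -- `Y > 1 - s`
    have hY3 : 1 - s < Y := by
      by_contra hcon
      have : Y ≤ 1 - s := not_lt.1 hcon
      nlinarith
    nlinarith

end Pool.Agent.TutteHard
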