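import Pool.Agent.Lib_helper88.TutteHard.Part

/-!
# Series-parallel networks
-/

set_option autoImplicit false
set_option linter.unusedSectionVars false

namespace Pool.Agent.TutteHard

/-- series-parallel trees -/
inductive SP : Type
  | edge : SP
  | par : SP → SP → SP
  | ser : SP → SP → SP

namespace SP

/-- the effective weight -/
noncomputable def wt (q v : ℝ) : SP → ℝ
  | edge => v
  | par A B => (1 + A.wt q v) * (1 + B.wt q v) - 1
  | ser A B => A.wt q v * B.wt q v / (q + A.wt q v + B.wt q v)

/-- the constant factor -/
noncomputable def fac (q v : ℝ) : SP → ℝ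
  | edge => 1
  | par A B => A.fac q v * B.fac q v
  | ser A B => A.fac q v * B.fac q v * (q + A.wt q v + B.wt q v)

/-- no denominator vanishes -/
def ok (q v : ℝ) : SP → Prop
  | edge => True
  | par A B => A.ok q v ∧ B.ok q v
  | ser A B => A.ok q v ∧ B.ok q v ∧ q + A.wt q v + B.wt q v ≠ 0

/-- the number of inner vertices -/
def cnt : SP → ℕ
  | edge => 0
  | par A B => A.cnt + B.cnt
  | ser A B => A.cnt + B.cnt + 1

variable {α : Type}

/-- the edges of the network between `a` and `b`; `nm` names the inner vertices -/
def edges (nm : List Bool → α) : SP → List Bool → α → α → List (α × α)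
  | edge, _, a, b => [(a, b)]
  | par A B, p, a, b => A.edges nm (false :: p) a b ++ B.edges nm (true :: p) a b
  | ser A B, p, a, b => A.edges nm (false :: p) a (nm p) ++ B.edges nm (true :: p) (nm p) b

variable [DecidableEq α]

/-- the inner vertices -/
def inner (nm : List Bool → α) : SP → List Bool → Finset α
  | edge, _ => ∅
  | par A B, p => A.inner nm (false :: p) ∪ B.inner nm (true :: p)
  | ser A B, p => insert (nm p) (A.inner nm (false :: p) ∪ B.inner nm (true :: p))

theorem mem_inner (nm : List Bool → α) (A : SP) (p : List Bool) {x : α}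
    (h : x ∈ A.inner nm p) : ∃ l, x = nm (l ++ p) := by
  induction A generalizing p with
  | edge => simp [inner] at h
  | par A B ihA ihB =>
    rw [inner, Finset.mem_union] at h
    rcases h with h | h
    · obtain ⟨l, hl⟩ := ihA _ h
      exact ⟨l ++ [false], by simpa using hl⟩
    · obtain ⟨l, hl⟩ := ihB _ h
      exact ⟨l ++ [true], by simpa using hl⟩
  | ser A B ihA ihB =>
    rw [inner, Finset.mem_insert, Finset.mem_union] at h
    rcases h with h | h | h
    · exact ⟨[], by simpa using h⟩
    · obtain ⟨l, hl⟩ := ihA _ h
      exact ⟨l ++ [false], by simpa using hl⟩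
    · obtain ⟨l, hl⟩ := ihB _ h
      exact ⟨l ++ [true], by simpa using hl⟩

theorem append_cons_ne {l l' p : List Bool} : l ++ false :: p ≠ l' ++ true :: p := by
  intro h
  have h1 := List.append_inj' h (by simp)
  simp at h1

theorem ne_append_cons {l p : List Bool} {b : Bool} : p ≠ l ++ b :: p := by
  intro h
  have h1 := congrArg List.length h
  simp at h1
  omega

theorem disjoint_inner {nm : List Bool → α} (hnm : Function.Injective nm) (A B : SP)
    (p : List Bool) : Disjoint (A.inner nm (false :: p)) (B.inner nm (true :: p)) := by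
  rw [Finset.disjoint_left]
  intro x hx hy
  obtain ⟨l, hl⟩ := mem_inner nm A _ hx
  obtain ⟨l', hl'⟩ := mem_inner nm B _ hy
  exact append_cons_ne (hnm (hl.symm.trans hl'))

theorem notMem_inner {nm : List Bool → α} (hnm : Function.Injective nm) (A : SP)
    (p : List Bool) (b : Bool) : nm p ∉ A.inner nm (b :: p) := by
  intro hx
  obtain ⟨l, hl⟩ := mem_inner nm A _ hx
  exact ne_append_cons (hnm hl)

theorem card_inner {nm : List Bool → α} (hnm : Function.Injective nm) (A : SP)
    (p : List Bool) : (A.inner nm p).card = A.cnt := by
  induction A generalizing p with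
  | edge => rfl
  | par A B ihA ihB =>
    rw [inner, cnt, Finset.card_union_of_disjoint (disjoint_inner hnm A B p), ihA, ihB]
  | ser A B ihA ihB =>
    rw [inner, cnt, Finset.card_insert_of_notMem, Finset.card_union_of_disjoint
      (disjoint_inner hnm A B p), ihA, ihB]
    rw [Finset.mem_union]
    rintro (h | h)
    · exact notMem_inner hnm A p _ h
    · exact notMem_inner hnm B p _ h

/-- the end vertices of the edges -/
theorem verts_edges (nm : List Bool → α) (A : SP) (p : List Bool) (a b x : α) :
    (∃ e ∈ A.edges nm p a b, x = e.1 ∨ x = e.2) ↔ x = a ∨ x = b ∨ x ∈ A.inner nm p := by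
  induction A generalizing p a b with
  | edge => simp [edges, inner]
  | par A B ihA ihB =>
    have hA := ihA (false :: p) a b
    have hB := ihB (true :: p) a b
    rw [edges, inner, Finset.mem_union]
    constructor
    · rintro ⟨e, he, hx⟩
      rcases List.mem_append.1 he with he | he
      · have := hA.1 ⟨e, he, hx⟩
        tauto
      · have := hB.1 ⟨e, he, hx⟩
        tauto
    · intro h
      by_cases h2 : x = a ∨ x = b ∨ x ∈ A.inner nm (false :: p)
      · obtain ⟨e, he, hx⟩ := hA.2 h2
        exact ⟨e, List.mem_append.2 (Or.inl he), hx⟩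
      · obtain ⟨e, he, hx⟩ := hB.2 (by tauto)
        exact ⟨e, List.mem_append.2 (Or.inr he), hx⟩
  | ser A B ihA ihB =>
    have hA := ihA (false :: p) a (nm p)
    have hB := ihB (true :: p) (nm p) b
    rw [edges, inner, Finset.mem_insert, Finset.mem_union]
    constructor
    · rintro ⟨e, he, hx⟩
      rcases List.mem_append.1 he with he | he
      · have := hA.1 ⟨e, he, hx⟩
        tauto
      · have := hB.1 ⟨e, he, hx⟩
        tauto
    · intro h
      by_cases h2 : x = a ∨ x = nm p ∨ x ∈ A.inner nm (false :: p)
      · obtain ⟨e, he, hx⟩ := hA.2 h2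
        exact ⟨e, List.mem_append.2 (Or.inl he), hx⟩
      · obtain ⟨e, he, hx⟩ := hB.2 (by tauto)
        exact ⟨e, List.mem_append.2 (Or.inr he), hx⟩

/-- every edge gets the weight `v` -/
def wtd (v : ℝ) (G : List (α × α)) : List ((α × α) × ℝ) := G.map fun e => (e, v)

theorem wtd_append (v : ℝ) (G H : List (α × α)) : wtd v (G ++ H) = wtd v G ++ wtd v H :=
  List.map_append

/-- the network acts as a single edge -/
theorem rv {nm : List Bool → α} (hnm : Function.Injective nm) (q v : ℝ) (A : SP)
    (hok : A.ok q v) (p : List Bool) (a b : α) :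
    RV q (wtd v (A.edges nm p a b)) (A.inner nm p) a b (A.wt q v) (A.fac q v) := by
  induction A generalizing p a b with
  | edge => exact RV.edge q a b v
  | par A B ihA ihB =>
    rw [edges, wtd_append, inner, wt, fac]
    exact (ihA hok.1 _ _ _).par (ihB hok.2 _ _ _) (disjoint_inner hnm A B p)
  | ser A B ihA ihB =>
    rw [edges, wtd_append, inner, wt, fac]
    exact (ihA hok.1 _ _ _).ser (ihB hok.2.1 _ _ _) (disjoint_inner hnm A B p)
      (notMem_inner hnm A p _) (notMem_inner hnm B p _) hok.2.2

theorem endsIn_edges (nm : List Bool → α) (A : SP) (p : List Bool) {a b : α} {V : Finset α}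
    (ha : a ∈ V) (hb : b ∈ V) : EndsIn (V ∪ A.inner nm p) (A.edges nm p a b) := by
  intro e he
  have h1 := (verts_edges nm A p a b e.1).1 ⟨e, he, Or.inl rfl⟩
  have h2 := (verts_edges nm A p a b e.2).1 ⟨e, he, Or.inr rfl⟩
  rw [Finset.mem_union, Finset.mem_union]
  constructor
  · rcases h1 with h1 | h1 | h1
    · exact Or.inl (h1 ▸ ha)
    · exact Or.inl (h1 ▸ hb)
    · exact Or.inr h1
  · rcases h2 with h1 | h1 | h1
    · exact Or.inl (h1 ▸ ha)
    · exact Or.inl (h1 ▸ hb)
    · exact Or.inr h1

theorem EndsIn_append {V : Finset α} {S T : List (α × α)} (hS : EndsIn V S) (hT : EndsIn V T) :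
    EndsIn V (S ++ T) := by
  intro e he
  rcases List.mem_append.1 he with he | he
  · exact hS e he
  · exact hT e he

/-- the network connects its ends, and does nothing else -/
theorem comps_edges {nm : List Bool → α} (hnm : Function.Injective nm) (A : SP)
    (p : List Bool) (a b : α) (V : Finset α) (S : List (α × α)) (ha : a ∈ V) (hb : b ∈ V)
    (hV : Disjoint V (A.inner nm p)) (hS : EndsIn V S) :
    comps (V ∪ A.inner nm p) (A.edges nm p a b ++ S) = comps V ((a, b) :: S) := by
  induction A generalizing p a b V S with
  | edge => simp [edges, inner]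
  | par A B ihA ihB =>
    rw [inner] at hV
    rw [edges, inner]
    set I := A.inner nm (false :: p) with hI
    set J := B.inner nm (true :: p) with hJ
    have hIJ : Disjoint I J := disjoint_inner hnm A B p
    have hVI : Disjoint V I := Finset.disjoint_of_subset_right Finset.subset_union_left hV
    have hVJ : Disjoint V J := Finset.disjoint_of_subset_right Finset.subset_union_right hV
    have h1 : V ∪ (I ∪ J) = (V ∪ J) ∪ I := by
      ext x; simp only [Finset.mem_union]; tauto
    have hsub : V ⊆ V ∪ J := Finset.subset_union_left
    rw [h1, List.append_assoc, ihA (false :: p) a b (V ∪ J) _ (hsub ha) (hsub hb) ?_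
      (EndsIn_append (endsIn_edges nm B (true :: p) ha hb) (hS.mono hsub))]
    · rw [comps_congr (T := B.edges nm (true :: p) a b ++ ((a, b) :: S)),
        ihB (true :: p) a b V _ ha hb hVJ (hS.cons ha hb)]
      · apply comps_congr
        intro f
        simp only [List.mem_cons]
        tauto
      · intro f
        simp only [List.mem_cons, List.mem_append]
        tauto
    · rw [Finset.disjoint_union_left]
      exact ⟨hVI, hIJ.symm⟩
  | ser A B ihA ihB =>
    rw [inner] at hV
    rw [edges, inner]
    have hzI : nm p ∉ A.inner nm (false :: p) := notMem_inner hnm A p _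
    have hzJ : nm p ∉ B.inner nm (true :: p) := notMem_inner hnm B p _
    have hIJ : Disjoint (A.inner nm (false :: p)) (B.inner nm (true :: p)) :=
      disjoint_inner hnm A B p
    have ihA' := ihA (false :: p) a (nm p)
    have ihB' := ihB (true :: p) (nm p) b
    have hBe := fun (W : Finset α) (h1 : nm p ∈ W) (h2 : b ∈ W) =>
      endsIn_edges nm B (true :: p) h1 h2
    generalize A.inner nm (false :: p) = I at *
    generalize B.inner nm (true :: p) = J at *
    generalize nm p = z at *
    have hzV : z ∉ V := fun h => Finset.disjoint_left.1 hV h (Finset.mem_insert_self _ _)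
    have hVI : Disjoint V I := Finset.disjoint_of_subset_right
      (Finset.subset_union_left.trans (Finset.subset_insert _ _)) hV
    have hVJ : Disjoint V J := Finset.disjoint_of_subset_right
      (Finset.subset_union_right.trans (Finset.subset_insert _ _)) hV
    have h1 : V ∪ insert z (I ∪ J) = (insert z V ∪ J) ∪ I := by
      ext x; simp only [Finset.mem_union, Finset.mem_insert]; tauto
    have hs1 : V ⊆ insert z V := Finset.subset_insert _ _
    have hs2 : insert z V ⊆ insert z V ∪ J := Finset.subset_union_left
    have hzz : z ∈ insert z V := Finset.mem_insert_self _ _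
    rw [h1, List.append_assoc, ihA' (insert z V ∪ J) _ (hs2 (hs1 ha)) (hs2 hzz) ?_
      (EndsIn_append (hBe (insert z V) hzz (hs1 hb)) ((hS.mono hs1).mono hs2))]
    · rw [comps_congr (T := B.edges nm (true :: p) z b ++ ((a, z) :: S)),
        ihB' (insert z V) _ hzz (hs1 hb) ?_ ((hS.mono hs1).cons (hs1 ha) hzz)]
      · exact comps_series hS ha hb hzV
      · rw [Finset.disjoint_insert_left]
        exact ⟨hzJ, hVJ⟩
      · intro f
        simp only [List.mem_cons, List.mem_append]
        tauto
    · rw [Finset.disjoint_union_left, Finset.disjoint_insert_left]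
      exact ⟨⟨hzI, hVI⟩, hIJ.symm⟩

/-! ### replacing all edges -/

/-- every edge of `G` is replaced by the network `A` -/
def repl (nm : List Bool → α) (A : SP) : List (α × α) → List (α × α)
  | [] => []
  | e :: G => A.edges nm (false :: List.replicate G.length true) e.1 e.2 ++ repl nm A G

/-- the new vertices -/
def newV (nm : List Bool → α) (A : SP) : ℕ → Finset α
  | 0 => ∅
  | n + 1 => A.inner nm (false :: List.replicate n true) ∪ newV nm A n

theorem mem_newV (nm : List Bool → α) (A : SP) (n : ℕ) {x : α} (h : x ∈ newV nm A n) :
    ∃ l, ∃ i < n, x = nm (l ++ false :: List.replicate i true) := by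
  induction n with
  | zero => simp [newV] at h
  | succ n ih =>
    rw [newV, Finset.mem_union] at h
    rcases h with h | h
    · obtain ⟨l, hl⟩ := mem_inner nm A _ h
      exact ⟨l, n, by omega, hl⟩
    · obtain ⟨l, i, hi, hl⟩ := ih h
      exact ⟨l, i, by omega, hl⟩

theorem rep_inj : ∀ (i j : ℕ) (l l' : List Bool),
    List.replicate i true ++ false :: l = List.replicate j true ++ false :: l' → i = j
  | 0, 0, _, _, _ => rfl
  | 0, j + 1, _, _, h => by simp [List.replicate_succ] at h
  | i + 1, 0, _, _, h => by simp [List.replicate_succ] at h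
  | i + 1, j + 1, l, l', h => by
    rw [List.replicate_succ, List.replicate_succ, List.cons_append, List.cons_append,
      List.cons.injEq] at h
    rw [rep_inj i j l l' h.2]

theorem rep_inj' {i j : ℕ} {l l' : List Bool}
    (h : l ++ false :: List.replicate i true = l' ++ false :: List.replicate j true) : i = j := by
  have h1 := congrArg List.reverse h
  simp only [List.reverse_append, List.reverse_cons, List.reverse_replicate, List.append_assoc,
    List.singleton_append] at h1
  exact rep_inj i j _ _ h1

theorem disjoint_newV {nm : List Bool → α} (hnm : Function.Injective nm) (A : SP) (n : ℕ) :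
    Disjoint (newV nm A n) (A.inner nm (false :: List.replicate n true)) := by
  rw [Finset.disjoint_left]
  intro x hx hy
  obtain ⟨l, i, hi, hl⟩ := mem_newV nm A _ hx
  obtain ⟨l', hl'⟩ := mem_inner nm A _ hy
  have := rep_inj' (hnm (hl.symm.trans hl'))
  omega

theorem card_newV {nm : List Bool → α} (hnm : Function.Injective nm) (A : SP) (n : ℕ) :
    (newV nm A n).card = n * A.cnt := by
  induction n with
  | zero => simp [newV]
  | succ n ih =>
    rw [newV, Finset.card_union_of_disjoint (disjoint_newV hnm A n).symm, card_inner hnm, ih]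
    ring

theorem endsIn_repl (nm : List Bool → α) (A : SP) {G : List (α × α)} {V : Finset α}
    (hG : EndsIn V G) : EndsIn (V ∪ newV nm A G.length) (repl nm A G) := by
  induction G with
  | nil => intro e he; simp [repl] at he
  | cons e G ih =>
    rw [repl, List.length_cons, newV]
    have he := hG e List.mem_cons_self
    have hG' : EndsIn V G := fun f hf => hG f (List.mem_cons_of_mem _ hf)
    refine EndsIn_append ((endsIn_edges nm A _ he.1 he.2).mono ?_) ((ih hG').mono ?_)
    · intro x
      simp only [Finset.mem_union]
      tauto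
    · intro x
      simp only [Finset.mem_union]
      tauto

/-- the partition function of the new graph -/
theorem Z_repl {nm : List Bool → α} (hnm : Function.Injective nm) (q v : ℝ) (A : SP)
    (hok : A.ok q v) {V : Finset α} {S : List (α × α)} (hS : EndsIn V S) :
    ∀ (G : List (α × α)) (L : List ((α × α) × ℝ)), EndsIn V G → EndsW V L →
      Disjoint V (newV nm A G.length) →
      Z q (V ∪ newV nm A G.length) S (wtd v (repl nm A G) ++ L) =
        A.fac q v ^ G.length * Z q V S (wtd (A.wt q v) G ++ L)
  | [], L, _, _, _ => by simp [newV, repl, wtd]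
  | e :: G, L, hG, hL, hV => by
    have he := hG e List.mem_cons_self
    have hG' : EndsIn V G := fun f hf => hG f (List.mem_cons_of_mem _ hf)
    rw [List.length_cons, newV] at hV
    rw [repl, List.length_cons, newV, wtd_append]
    have hVI : Disjoint V (A.inner nm (false :: List.replicate G.length true)) :=
      Finset.disjoint_of_subset_right Finset.subset_union_left hV
    have hVJ : Disjoint V (newV nm A G.length) :=
      Finset.disjoint_of_subset_right Finset.subset_union_right hV
    have hrv := rv hnm q v A hok (false :: List.replicate G.length true) e.1 e.2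
    have ih := Z_repl hnm q v A hok hS G (((e, A.wt q v)) :: L) hG' (hL.cons he.1 he.2) hVJ
    have hdis := disjoint_newV hnm A G.length
    have hr := endsIn_repl nm A hG'
    generalize A.inner nm (false :: List.replicate G.length true) = I at *
    generalize newV nm A G.length = J at *
    have h1 : V ∪ (I ∪ J) = (V ∪ J) ∪ I := by
      ext x; simp only [Finset.mem_union]; tauto
    have hsub : V ⊆ V ∪ J := Finset.subset_union_left
    rw [h1, List.append_assoc, hrv.eq (V ∪ J) S _ (hsub he.1) (hsub he.2) ?_ (hS.mono hsub) ?_]
    · have hp : ((((e.1, e.2), A.wt q v) :: (wtd v (repl nm A G) ++ L)) :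
          List ((α × α) × ℝ)).Perm (wtd v (repl nm A G) ++ ((e, A.wt q v) :: L)) :=
        (List.perm_middle).symm
      rw [Z_perm q _ hp, ih, pow_succ]
      have hp2 : (wtd (A.wt q v) G ++ (e, A.wt q v) :: L).Perm
          (wtd (A.wt q v) (e :: G) ++ L) := List.perm_middle
      rw [Z_perm q _ hp2]
      ring
    · rw [Finset.disjoint_union_left]
      exact ⟨hVI, hdis⟩
    · refine EndsW.append ?_ (hL.mono hsub)
      intro f hf
      rw [wtd, List.mem_map] at hf
      obtain ⟨g, hg, rfl⟩ := hf
      exact hr g hg

/-- the components of the new graph -/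
theorem comps_repl {nm : List Bool → α} (hnm : Function.Injective nm) (A : SP) {V : Finset α} :
    ∀ (G S : List (α × α)), EndsIn V G → EndsIn V S → Disjoint V (newV nm A G.length) →
      comps (V ∪ newV nm A G.length) (repl nm A G ++ S) = comps V (G ++ S)
  | [], S, _, _, _ => by simp [newV, repl]
  | e :: G, S, hG, hS, hV => by
    have he := hG e List.mem_cons_self
    have hG' : EndsIn V G := fun f hf => hG f (List.mem_cons_of_mem _ hf)
    rw [List.length_cons, newV] at hV
    rw [repl, List.length_cons, newV]
    have hVI : Disjoint V (A.inner nm (false :: List.replicate G.length true)) :=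
      Finset.disjoint_of_subset_right Finset.subset_union_left hV
    have hVJ : Disjoint V (newV nm A G.length) :=
      Finset.disjoint_of_subset_right Finset.subset_union_right hV
    have hrv := comps_edges hnm A (false :: List.replicate G.length true) e.1 e.2
    have ih := comps_repl hnm A G (e :: S) hG' (hS.cons he.1 he.2) hVJ
    have hdis := disjoint_newV hnm A G.length
    have hr := endsIn_repl nm A hG'
    generalize A.inner nm (false :: List.replicate G.length true) = I at *
    generalize newV nm A G.length = J at *
    have h1 : V ∪ (I ∪ J) = (V ∪ J) ∪ I := by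
      ext x; simp only [Finset.mem_union]; tauto
    have hsub : V ⊆ V ∪ J := Finset.subset_union_left
    rw [h1, List.append_assoc, hrv (V ∪ J) _ (hsub he.1) (hsub he.2) ?_
      (EndsIn_append hr (hS.mono hsub)), comps_congr (T := repl nm A G ++ (e :: S)), ih]
    · apply comps_congr
      intro f
      simp only [List.mem_cons, List.mem_append]
      tauto
    · intro f
      simp only [List.mem_cons, List.mem_append]
      tauto
    · rw [Finset.disjoint_union_left]
      exact ⟨hVI, hdis⟩

/-- the vertices of the new graph -/
theorem mem_verts_repl (nm : List Bool → α) (A : SP) (G : List (α × α)) (x : α) :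
    (∃ e ∈ repl nm A G, x = e.1 ∨ x = e.2) ↔
      (∃ e ∈ G, x = e.1 ∨ x = e.2) ∨ x ∈ newV nm A G.length := by
  induction G with
  | nil => simp [repl, newV]
  | cons e G ih =>
    have h1 := verts_edges nm A (false :: List.replicate G.length true) e.1 e.2 x
    rw [repl, List.length_cons, newV, Finset.mem_union]
    constructor
    · rintro ⟨f, hf, hx⟩
      rcases List.mem_append.1 hf with hf | hf
      · rcases h1.1 ⟨f, hf, hx⟩ with h | h | h
        · exact Or.inl ⟨e, List.mem_cons_self, Or.inl h⟩
        · exact Or.inl ⟨e, List.mem_cons_self, Or.inr h⟩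
        · exact Or.inr (Or.inl h)
      · rcases ih.1 ⟨f, hf, hx⟩ with ⟨g, hg, h⟩ | h
        · exact Or.inl ⟨g, List.mem_cons_of_mem _ hg, h⟩
        · exact Or.inr (Or.inr h)
    · rintro (⟨f, hf, hx⟩ | h | h)
      · rcases List.mem_cons.1 hf with rfl | hf
        · obtain ⟨g, hg, h⟩ := h1.2 (by tauto)
          exact ⟨g, List.mem_append.2 (Or.inl hg), h⟩
        · obtain ⟨g, hg, h⟩ := ih.2 (Or.inl ⟨f, hf, hx⟩)
          exact ⟨g, List.mem_append.2 (Or.inr hg), h⟩
      · obtain ⟨g, hg, h⟩ := h1.2 (by tauto)
        exact ⟨g, List.mem_append.2 (Or.inl hg), h⟩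
      · obtain ⟨g, hg, h⟩ := ih.2 (Or.inr h)
        exact ⟨g, List.mem_append.2 (Or.inr hg), h⟩

end SP

end Pool.Agent.TutteHard
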