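import Pool.Agent.Lib_helper88.TutteHard.Comps

/-!
# The partition function and two-terminal networks
-/

set_option autoImplicit false

namespace Pool.Agent.TutteHard

variable {α : Type} [DecidableEq α]

/-- the partition function `∑_A q^{k(S ∪ A)} ∏_{e ∈ A} v_e`, `A` running through the sublists -/
noncomputable def Z (q : ℝ) (V : Finset α) : List (α × α) → List ((α × α) × ℝ) → ℝ
  | S, [] => q ^ comps V S
  | S, e :: L => e.2 * Z q V (e.1 :: S) L + Z q V S L

/-- all end vertices of a weighted list of edges lie in `V` -/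
def EndsW (V : Finset α) (L : List ((α × α) × ℝ)) : Prop := ∀ e ∈ L, e.1.1 ∈ V ∧ e.1.2 ∈ V

section
omit [DecidableEq α]

theorem EndsW.cons {V : Finset α} {L : List ((α × α) × ℝ)} {e : (α × α) × ℝ} (h : EndsW V L)
    (h1 : e.1.1 ∈ V) (h2 : e.1.2 ∈ V) : EndsW V (e :: L) := by
  intro f hf
  rcases List.mem_cons.1 hf with rfl | hf
  · exact ⟨h1, h2⟩
  · exact h f hf

theorem EndsW.of_cons {V : Finset α} {L : List ((α × α) × ℝ)} {e : (α × α) × ℝ}
    (h : EndsW V (e :: L)) : EndsW V L := fun f hf => h f (List.mem_cons_of_mem _ hf)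

theorem EndsW.append {V : Finset α} {L M : List ((α × α) × ℝ)} (h : EndsW V L)
    (h' : EndsW V M) : EndsW V (L ++ M) := by
  intro f hf
  rcases List.mem_append.1 hf with hf | hf
  · exact h f hf
  · exact h' f hf

theorem EndsW.mono {V W : Finset α} {L : List ((α × α) × ℝ)} (h : EndsW V L)
    (h' : V ⊆ W) : EndsW W L := fun f hf => ⟨h' (h f hf).1, h' (h f hf).2⟩

theorem EndsIn.mono {V W : Finset α} {L : List (α × α)} (h : EndsIn V L)
    (h' : V ⊆ W) : EndsIn W L := fun f hf => ⟨h' (h f hf).1, h' (h f hf).2⟩

theorem Z_nil (q : ℝ) (V : Finset α) (S : List (α × α)) : Z q V S [] = q ^ comps V S := rfl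

theorem Z_cons (q : ℝ) (V : Finset α) (S : List (α × α)) (e : (α × α) × ℝ)
    (L : List ((α × α) × ℝ)) : Z q V S (e :: L) = e.2 * Z q V (e.1 :: S) L + Z q V S L := rfl

theorem Z_congr (q : ℝ) (V : Finset α) {S T : List (α × α)} (h : ∀ e, e ∈ S ↔ e ∈ T)
    (L : List ((α × α) × ℝ)) : Z q V S L = Z q V T L := by
  induction L generalizing S T with
  | nil => rw [Z_nil, Z_nil, comps_congr h]
  | cons e L ih =>
    rw [Z_cons, Z_cons, ih h, ih (S := e.1 :: S) (T := e.1 :: T)]
    intro f
    rw [List.mem_cons, List.mem_cons, h]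

theorem Z_perm (q : ℝ) (V : Finset α) {L M : List ((α × α) × ℝ)} (h : L.Perm M)
    (S : List (α × α)) : Z q V S L = Z q V S M := by
  induction h generalizing S with
  | nil => rfl
  | cons e _ ih => rw [Z_cons, Z_cons, ih, ih]
  | swap e f L =>
    rw [Z_cons, Z_cons, Z_cons, Z_cons, Z_cons, Z_cons,
      Z_congr q V (S := e.1 :: f.1 :: S) (T := f.1 :: e.1 :: S)]
    · ring
    · intro g
      simp only [List.mem_cons]
      tauto
  | trans _ _ ih1 ih2 => rw [ih1, ih2]

end

omit [DecidableEq α] in
/-- a general transfer of an identity between component counts -/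
theorem Z_transfer (q c : ℝ) {V W : Finset α} {P Q : List (α × α)} {S : List (α × α)}
    {L : List ((α × α) × ℝ)} (hS : EndsIn V S) (hL : EndsW V L)
    (h : ∀ T : List (α × α), EndsIn V T → q ^ comps W (P ++ T) = c * q ^ comps V (Q ++ T)) :
    Z q W (P ++ S) L = c * Z q V (Q ++ S) L := by
  induction L generalizing S with
  | nil => exact h S hS
  | cons e L ih =>
    have he := hL e (by simp)
    have h1 := ih hS hL.of_cons
    have h2 := ih (S := e.1 :: S) (hS.cons he.1 he.2) hL.of_cons
    rw [Z_cons, Z_cons, h1, Z_congr q W (S := e.1 :: (P ++ S)) (T := P ++ e.1 :: S),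
      Z_congr q V (S := e.1 :: (Q ++ S)) (T := Q ++ e.1 :: S), h2]
    · ring
    · intro f
      simp only [List.mem_cons, List.mem_append]
      tauto
    · intro f
      simp only [List.mem_cons, List.mem_append]
      tauto

theorem Z_leaf (q : ℝ) {V : Finset α} {S : List (α × α)} {L : List ((α × α) × ℝ)}
    (hS : EndsIn V S) (hL : EndsW V L) {a z : α} (ha : a ∈ V) (hz : z ∉ V) :
    Z q (insert z V) ((a, z) :: S) L = Z q V S L := by
  have := Z_transfer q 1 (W := insert z V) (P := [(a, z)]) (Q := []) hS hL (fun T hT => by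
    rw [one_mul, List.singleton_append, comps_leaf hT ha hz, List.nil_append])
  simpa using this

theorem Z_leaf' (q : ℝ) {V : Finset α} {S : List (α × α)} {L : List ((α × α) × ℝ)}
    (hS : EndsIn V S) (hL : EndsW V L) {b z : α} (hb : b ∈ V) (hz : z ∉ V) :
    Z q (insert z V) ((z, b) :: S) L = Z q V S L := by
  have := Z_transfer q 1 (W := insert z V) (P := [(z, b)]) (Q := []) hS hL (fun T hT => by
    rw [one_mul, List.singleton_append, comps_leaf' hT hb hz, List.nil_append])
  simpa using this

theorem Z_series (q : ℝ) {V : Finset α} {S : List (α × α)} {L : List ((α × α) × ℝ)}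
    (hS : EndsIn V S) (hL : EndsW V L) {a b z : α} (ha : a ∈ V) (hb : b ∈ V) (hz : z ∉ V) :
    Z q (insert z V) ((z, b) :: (a, z) :: S) L = Z q V ((a, b) :: S) L := by
  have := Z_transfer q 1 (W := insert z V) (P := [(z, b), (a, z)]) (Q := [(a, b)]) hS hL
    (fun T hT => by
      have := comps_series hT ha hb hz
      simp only [one_mul, List.cons_append, List.nil_append]
      rw [this])
  simpa using this

theorem Z_union (q : ℝ) {V : Finset α} {S : List (α × α)} {L : List ((α × α) × ℝ)}
    (hS : EndsIn V S) (hL : EndsW V L) {I : Finset α} (hI : Disjoint V I) :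
    Z q (V ∪ I) S L = q ^ I.card * Z q V S L := by
  have := Z_transfer q (q ^ I.card) (W := V ∪ I) (P := []) (Q := []) hS hL (fun T hT => by
      simp only [List.nil_append]
      rw [comps_union hT I hI, pow_add, mul_comm])
  simpa using this

theorem Z_insert (q : ℝ) {V : Finset α} {S : List (α × α)} {L : List ((α × α) × ℝ)}
    (hS : EndsIn V S) (hL : EndsW V L) {z : α} (hz : z ∉ V) :
    Z q (insert z V) S L = q * Z q V S L := by
  have h := Z_union q hS hL (I := {z}) (by simpa using hz)
  rw [Finset.card_singleton, pow_one, Finset.union_comm] at h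
  rw [← h, Finset.insert_eq]

/-- the network `F` with inner vertices `I` acts between `a` and `b` as a single edge of weight
`v`, up to the factor `c` -/
structure RV (q : ℝ) (F : List ((α × α) × ℝ)) (I : Finset α) (a b : α) (v c : ℝ) : Prop where
  ends : EndsW (insert a (insert b I)) F
  eq : ∀ (V : Finset α) (S : List (α × α)) (L : List ((α × α) × ℝ)), a ∈ V → b ∈ V →
    Disjoint V I → EndsIn V S → EndsW V L → Z q (V ∪ I) S (F ++ L) = c * Z q V S (((a, b), v) :: L)

theorem RV.edge (q : ℝ) (a b : α) (v : ℝ) : RV q [((a, b), v)] ∅ a b v 1 where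
  ends := by
    intro e he
    simp only [List.mem_singleton] at he
    subst he
    simp
  eq := by
    intro V S L _ _ _ _ _
    simp

theorem RV.nil (q : ℝ) (a b : α) : RV q [] ∅ a b 0 1 where
  ends := by
    intro e he
    simp at he
  eq := by
    intro V S L _ _ _ _ _
    simp [Z_cons]

omit [DecidableEq α] in
/-- two parallel edges -/
theorem Z_par (q : ℝ) (V : Finset α) (S : List (α × α)) (L : List ((α × α) × ℝ)) (e : α × α)
    (v w : ℝ) : Z q V S ((e, v) :: (e, w) :: L) = Z q V S ((e, (1 + v) * (1 + w) - 1) :: L) := by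
  rw [Z_cons, Z_cons, Z_cons, Z_cons, Z_congr q V (S := e :: e :: S) (T := e :: S)]
  · ring
  · intro f
    simp only [List.mem_cons]
    tauto

theorem RV.par {q : ℝ} {F G : List ((α × α) × ℝ)} {I J : Finset α} {a b : α} {v w c d : ℝ}
    (hF : RV q F I a b v c) (hG : RV q G J a b w d) (hIJ : Disjoint I J) :
    RV q (F ++ G) (I ∪ J) a b ((1 + v) * (1 + w) - 1) (c * d) where
  ends := by
    refine EndsW.append (hF.ends.mono ?_) (hG.ends.mono ?_)
    · exact Finset.insert_subset_insert _ (Finset.insert_subset_insert _ Finset.subset_union_left)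
    · exact Finset.insert_subset_insert _ (Finset.insert_subset_insert _ Finset.subset_union_right)
  eq := by
    intro V S L ha hb hV hS hL
    have hVI : Disjoint V I := Finset.disjoint_of_subset_right Finset.subset_union_left hV
    have hVJ : Disjoint V J := Finset.disjoint_of_subset_right Finset.subset_union_right hV
    have h1 : V ∪ (I ∪ J) = (V ∪ J) ∪ I := by
      ext x; simp only [Finset.mem_union]; tauto
    have hsub : V ⊆ V ∪ J := Finset.subset_union_left
    have hGe : EndsW (V ∪ J) G := hG.ends.mono (by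
      intro x hx
      simp only [Finset.mem_insert] at hx
      simp only [Finset.mem_union]
      rcases hx with rfl | rfl | hx
      · exact Or.inl ha
      · exact Or.inl hb
      · exact Or.inr hx)
    rw [h1, List.append_assoc, hF.eq (V ∪ J) S (G ++ L) (hsub ha) (hsub hb) ?_ (hS.mono hsub)
      (hGe.append (hL.mono hsub))]
    · have hp : ((((a, b), v) :: (G ++ L)) : List ((α × α) × ℝ)).Perm
          (G ++ (((a, b), v) :: L)) := (List.perm_middle).symm
      rw [Z_perm q _ hp, hG.eq V S _ ha hb hVJ hS (hL.cons ha hb), Z_perm q V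
        (List.Perm.swap _ _ _), Z_par]
      ring
    · rw [Finset.disjoint_union_left]
      exact ⟨hVI, hIJ.symm⟩

theorem RV.ser {q : ℝ} {F G : List ((α × α) × ℝ)} {I J : Finset α} {a b z : α} {v w c d : ℝ}
    (hF : RV q F I a z v c) (hG : RV q G J z b w d) (hIJ : Disjoint I J) (hzI : z ∉ I)
    (hzJ : z ∉ J) (h0 : q + v + w ≠ 0) :
    RV q (F ++ G) (insert z (I ∪ J)) a b (v * w / (q + v + w)) (c * d * (q + v + w)) where
  ends := by
    refine EndsW.append (hF.ends.mono ?_) (hG.ends.mono ?_)
    · intro x hx
      simp only [Finset.mem_insert, Finset.mem_union] at hx ⊢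
      tauto
    · intro x hx
      simp only [Finset.mem_insert, Finset.mem_union] at hx ⊢
      tauto
  eq := by
    intro V S L ha hb hV hS hL
    have hzV : z ∉ V := fun h => Finset.disjoint_left.1 hV h (Finset.mem_insert_self _ _)
    have hVI : Disjoint V I := Finset.disjoint_of_subset_right
      (Finset.subset_union_left.trans (Finset.subset_insert _ _)) hV
    have hVJ : Disjoint V J := Finset.disjoint_of_subset_right
      (Finset.subset_union_right.trans (Finset.subset_insert _ _)) hV
    have h1 : V ∪ insert z (I ∪ J) = (insert z V ∪ J) ∪ I := by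
      ext x; simp only [Finset.mem_union, Finset.mem_insert]; tauto
    have hs1 : V ⊆ insert z V := Finset.subset_insert _ _
    have hs2 : insert z V ⊆ insert z V ∪ J := Finset.subset_union_left
    have hzz : z ∈ insert z V := Finset.mem_insert_self _ _
    have hGe : EndsW (insert z V ∪ J) G := hG.ends.mono (by
      intro x hx
      simp only [Finset.mem_insert] at hx
      simp only [Finset.mem_union, Finset.mem_insert]
      rcases hx with rfl | rfl | hx
      · exact Or.inl (Or.inl rfl)
      · exact Or.inl (Or.inr hb)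
      · exact Or.inr hx)
    rw [h1, List.append_assoc, hF.eq (insert z V ∪ J) S (G ++ L) (hs2 (hs1 ha)) (hs2 hzz) ?_
      ((hS.mono hs1).mono hs2) (hGe.append ((hL.mono hs1).mono hs2))]
    · have hp : ((((a, z), v) :: (G ++ L)) : List ((α × α) × ℝ)).Perm
          (G ++ (((a, z), v) :: L)) := (List.perm_middle).symm
      rw [Z_perm q _ hp, hG.eq (insert z V) S _ hzz (hs1 hb) ?_ (hS.mono hs1)
        ((hL.mono hs1).cons (hs1 ha) hzz)]
      · rw [Z_cons, Z_cons, Z_cons, Z_cons]
        simp only
        rw [Z_congr q (insert z V) (S := (a, z) :: (z, b) :: S) (T := (z, b) :: (a, z) :: S)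
            (by intro f; simp only [List.mem_cons]; tauto),
          Z_series q hS hL ha hb hzV, Z_leaf q hS hL ha hzV, Z_leaf' q hS hL hb hzV,
          Z_insert q hS hL hzV]
        field_simp
        ring
      · rw [Finset.disjoint_insert_left]
        exact ⟨hzJ, hVJ⟩
    · rw [Finset.disjoint_union_left, Finset.disjoint_insert_left]
      exact ⟨⟨hzI, hVI⟩, hIJ.symm⟩

/-- change of the description of a network -/
theorem RV.congr {q : ℝ} {F G : List ((α × α) × ℝ)} {I J : Finset α} {a b : α} {v w c d : ℝ}
    (hF : RV q F I a b v c) (h1 : F.Perm G) (h2 : I = J) (h3 : v = w) (h4 : c = d) :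
    RV q G J a b w d where
  ends := by
    intro e he
    subst h2
    exact hF.ends e (h1.mem_iff.2 he)
  eq := by
    subst h2 h3 h4
    intro V S L ha hb hV hS hL
    rw [← hF.eq V S L ha hb hV hS hL]
    exact (Z_perm q _ (h1.append_right L) S).symm

end Pool.Agent.TutteHard
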