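import Pool.Agent.Lib_helper88.TutteHard.Shift
import Pool.Agent.Lib_helper88.PolyTime.Size

/-!
# The replacement of edges by networks is computable in polynomial time
-/

set_option autoImplicit false

namespace Pool.Agent.TutteHard

open Pool.Agent.PT

theorem PT_edges (A : SP) : PT (fun z : Vx × (Vx × Vx) => A.edges nmT z.1 z.2.1 z.2.2) := by
  induction A with
  | edge => exact PT.cons PT.snd (PT.const [])
  | par A B ihA ihB =>
    have h1 : PT (fun z : Vx × (Vx × Vx) => A.edges nmT (false :: z.1) z.2.1 z.2.2) :=
      ihA.comp ((PT.cons (PT.const false) PT.fst).pair PT.snd)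
    have h2 : PT (fun z : Vx × (Vx × Vx) => B.edges nmT (true :: z.1) z.2.1 z.2.2) :=
      ihB.comp ((PT.cons (PT.const true) PT.fst).pair PT.snd)
    exact h1.append h2
  | ser A B ihA ihB =>
    have h1 : PT (fun z : Vx × (Vx × Vx) => A.edges nmT (false :: z.1) z.2.1 (nmT z.1)) :=
      ihA.comp ((PT.cons (PT.const false) PT.fst).pair
        (PT.snd.comp_fst.pair (PT.cons (PT.const true) PT.fst)))
    have h2 : PT (fun z : Vx × (Vx × Vx) => B.edges nmT (true :: z.1) (nmT z.1) z.2.2) :=
      ihB.comp ((PT.cons (PT.const true) PT.fst).pair
        ((PT.cons (PT.const true) PT.fst).pair PT.snd.comp_snd))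
    exact h1.append h2

/-- one step: a counter and the list of edges made so far -/
def stepR (A : SP) (p : Bool × (Vx × MGraph) × (Vx × Vx)) : Vx × MGraph :=
  (true :: p.2.1.1, A.edges nmT (false :: p.2.1.1) (nmF p.2.2.1) (nmF p.2.2.2) ++ p.2.1.2)

theorem PT_stepR (A : SP) : PT (stepR A) := by
  have h1 : PT (fun p : Bool × (Vx × MGraph) × (Vx × Vx) => true :: p.2.1.1) :=
    PT.cons (PT.const true) PT.snd.comp_fst.comp_fst
  have h2 : PT (fun p : Bool × (Vx × MGraph) × (Vx × Vx) =>
      A.edges nmT (false :: p.2.1.1) (nmF p.2.2.1) (nmF p.2.2.2)) :=
    (PT_edges A).comp ((PT.cons (PT.const false) PT.snd.comp_fst.comp_fst).pair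
      ((PT.cons (PT.const false) PT.snd.comp_snd.comp_fst).pair
        (PT.cons (PT.const false) PT.snd.comp_snd.comp_snd)))
  exact h1.pair (h2.append PT.snd.comp_fst.comp_snd)

theorem length_enc_bits (l : List Bool) : (enc l).length = 3 * l.length := by
  induction l with
  | nil => rfl
  | cons b l ih =>
    rw [length_enc_cons, ih, enc_bool]
    simp
    omega

theorem fold_stepR (A : SP) (G : MGraph) :
    G.reverse.foldl (fun s a => stepR A (true, s, a)) ([], []) =
      (List.replicate G.length true, red A G) := by
  induction G with
  | nil => rfl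
  | cons e G ih =>
    rw [List.reverse_cons, List.foldl_append, ih]
    simp only [List.foldl_cons, List.foldl_nil, stepR]
    refine Prod.ext ?_ ?_
    · simp [List.replicate_succ]
    · simp only [red, ren, List.map_cons, SP.repl, List.length_map, Prod.map]

theorem PT_red (A : SP) : PT (red A) := by
  obtain ⟨q, hq⟩ := (PT_edges A).length_bound
  have hf : PT (fun p : Bool × (Vx × MGraph) × List (Vx × Vx) =>
      p.2.2.foldl (fun s a => stepR A (p.1, s, a)) p.2.1) := by
    refine PT.foldl (PT_stepR A) (Polynomial.X + Polynomial.X *
      (6 + q.comp (20 * Polynomial.X + 20))) ?_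
    intro e s l
    have key : ∀ (B : ℕ) (l : List (Vx × Vx)) (s : Vx × MGraph), (∀ a ∈ l, (enc a).length ≤ B) →
        (enc s.1).length + 3 * l.length ≤ 4 * B →
        (enc (l.foldl (fun s a => stepR A (e, s, a)) s)).length ≤
          (enc s).length + l.length * (6 + q.eval (20 * B + 20)) := by
      intro B l
      induction l with
      | nil => intro s _ _; simp
      | cons a l ih =>
        intro s h1 h2
        obtain ⟨i, out⟩ := s
        obtain ⟨a1, a2⟩ := a
        have ha := h1 (a1, a2) List.mem_cons_self
        rw [length_enc_pair, length_enc_bits, length_enc_bits] at ha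
        rw [length_enc_bits, List.length_cons] at h2
        simp only at h2
        have h3 := ih (stepR A (e, (i, out), (a1, a2)))
          (fun b hb => h1 b (List.mem_cons_of_mem _ hb)) (by
            simp only [stepR, length_enc_bits, List.length_cons]
            omega)
        have h4 := hq (false :: i, nmF a1, nmF a2)
        have h5 := poly_mono q (show (enc (false :: i, nmF a1, nmF a2)).length ≤ 20 * B + 20 by
          rw [length_enc_pair, length_enc_pair, length_enc_bits, length_enc_bits,
            length_enc_bits]
          simp only [nmF, List.length_cons]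
          omega)
        have h6 : (enc (stepR A (e, (i, out), (a1, a2)))).length =
            (enc (i, out)).length + 6 +
              (enc (A.edges nmT (false :: i) (nmF a1) (nmF a2))).length := by
          simp only [stepR]
          rw [length_enc_pair, length_enc_pair, enc_append, List.length_append, length_enc_bits,
            length_enc_bits, List.length_cons]
          omega
        rw [List.foldl_cons, List.length_cons, add_one_mul]
        simp only at h4
        omega
    have hlen : (enc (e, s, l)).length = 2 * (enc e).length + 1 + (2 * (enc s).length + 1 +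
        (enc l).length) := by rw [length_enc_pair, length_enc_pair]
    have hs1 : (enc s).length = 2 * (enc s.1).length + 1 + (enc s.2).length :=
      length_enc_pair s.1 s.2
    have h3 := length_le_enc l
    have h1 := key (enc (e, s, l)).length l s (fun a ha => by
      have := length_enc_mem ha
      omega) (by omega)
    have h4 : l.length * (6 + q.eval (20 * (enc (e, s, l)).length + 20)) ≤
        (enc (e, s, l)).length * (6 + q.eval (20 * (enc (e, s, l)).length + 20)) :=
      Nat.mul_le_mul (by omega) le_rfl
    simp only [Polynomial.eval_add, Polynomial.eval_mul, Polynomial.eval_X,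
      Polynomial.eval_comp, Polynomial.eval_ofNat]
    omega
  have h2 := (hf.comp ((PT.const (α := MGraph) true).pair
    ((PT.const (α := MGraph) (([] : Vx), ([] : MGraph))).pair PT.reverse))).comp_snd
  refine h2.congr fun G => ?_
  simp only
  rw [fold_stepR]

end Pool.Agent.TutteHard
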