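import Pool.Agent.Lib_helper88.TutteHard.Bridge

/-!
# Replacing every edge by a series-parallel network
-/

set_option autoImplicit false

namespace Pool.Agent.TutteHard

/-- the names of the new vertices -/
def nmT (p : Vx) : Vx := true :: p

/-- the names of the old vertices -/
def nmF (p : Vx) : Vx := false :: p

theorem nmT_inj : Function.Injective nmT := fun _ _ h => (List.cons.injEq _ _ _ _ ▸ h).2
theorem nmF_inj : Function.Injective nmF := fun _ _ h => (List.cons.injEq _ _ _ _ ▸ h).2

/-- the graph in which every edge of `G` is replaced by a copy of the network `A` -/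
def red (A : SP) (G : MGraph) : MGraph := SP.repl nmT A (ren nmF G)

theorem length_ren (G : MGraph) : (ren nmF G).length = G.length := List.length_map _

theorem disjoint_red (A : SP) (G : MGraph) :
    Disjoint ((verts G).image nmF) (SP.newV nmT A G.length) := by
  rw [Finset.disjoint_left]
  intro x hx hy
  obtain ⟨a, _, rfl⟩ := Finset.mem_image.1 hx
  obtain ⟨l, i, _, h⟩ := SP.mem_newV nmT A _ hy
  unfold nmF nmT at h
  simp at h

theorem verts_red (A : SP) (G : MGraph) :
    verts (red A G) = (verts G).image nmF ∪ SP.newV nmT A G.length := by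
  ext x
  rw [mem_verts, red, SP.mem_verts_repl, ← mem_verts, verts_ren, length_ren, Finset.mem_union]

theorem card_verts_red (A : SP) (G : MGraph) :
    (verts (red A G)).card = (verts G).card + G.length * A.cnt := by
  rw [verts_red, Finset.card_union_of_disjoint (disjoint_red A G),
    Finset.card_image_of_injective _ nmF_inj, SP.card_newV nmT_inj]

theorem endsIn_ren (G : MGraph) : EndsIn ((verts G).image nmF) (ren nmF G) := by
  rw [← verts_ren]
  exact endsIn_verts _

theorem comps_red (A : SP) (G : MGraph) :
    comps (verts (red A G)) (red A G) = comps (verts G) G := by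
  have h := SP.comps_repl nmT_inj A (V := (verts G).image nmF) (ren nmF G) [] (endsIn_ren G)
    (fun e he => by simp at he) (by rw [length_ren]; exact disjoint_red A G)
  rw [length_ren, List.append_nil, List.append_nil, comps_ren nmF_inj] at h
  rw [verts_red, red]
  exact h

theorem Z_red (q v : ℝ) (A : SP) (hok : A.ok q v) (G : MGraph) :
    Z q (verts (red A G)) [] (SP.wtd v (red A G)) =
      A.fac q v ^ G.length * Z q (verts G) [] (SP.wtd (A.wt q v) G) := by
  have h := SP.Z_repl nmT_inj q v A hok (V := (verts G).image nmF) (S := [])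
    (fun e he => by simp at he) (ren nmF G) [] (endsIn_ren G) (fun e he => by simp at he)
    (by rw [length_ren]; exact disjoint_red A G)
  rw [length_ren, List.append_nil, List.append_nil] at h
  have h2 := Z_ren q (A.wt q v) nmF_inj (V := verts G) G [] (endsIn_verts G)
    (fun e he => by simp at he)
  have h3 : ren nmF ([] : MGraph) = [] := rfl
  rw [h3] at h2
  rw [verts_red, red, h, h2]

/-- **Exact shift.** The Tutte polynomial of the graph in which all edges are replaced by the
network `A`, at the point with `y - 1 = v`, `(x - 1) (y - 1) = q`, is the Tutte polynomial of `G`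
at the point `(1 + q / w, 1 + w)`, where `w` is the effective weight of `A`, up to explicit
factors. -/
theorem tutte_red {q v : ℝ} (hq : q ≠ 0) (hv : v ≠ 0) (A : SP) (hok : A.ok q v)
    (hw : A.wt q v ≠ 0) (G : MGraph) :
    tutte (red A G) (1 + q / v) (1 + v) =
      (A.fac q v / v ^ A.cnt) ^ G.length * (A.wt q v / v) ^ rank G Finset.univ *
        tutte G (1 + q / A.wt q v) (1 + A.wt q v) := by
  set w := A.wt q v with hwdef
  have h1 := tutte_eq_Z (red A G) (1 + q / v) (1 + v)
  have h2 := tutte_eq_Z G (1 + q / w) (1 + w)
  have e1 : (1 + q / v - 1) * (1 + v - 1) = q := by field_simp; ring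
  have e2 : (1 + q / w - 1) * (1 + w - 1) = q := by field_simp; ring
  have e3 : 1 + v - 1 = v := by ring
  have e4 : 1 + w - 1 = w := by ring
  rw [e1, e3, comps_red, card_verts_red] at h1
  rw [e2, e4] at h2
  rw [Z_red q v A hok G, ← hwdef, ← h2] at h1
  have hk := (comps_le_card (endsIn_verts G)).1
  have hr : rank G Finset.univ = (verts G).card - comps (verts G) G := by
    unfold rank
    rw [subEdges_univ]
  set k := comps (verts G) G
  set n := (verts G).card
  set r := rank G Finset.univ
  have hn : n = k + r := by omega
  have e5 : 1 + q / v - 1 = q / v := by ring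
  have e6 : 1 + q / w - 1 = q / w := by ring
  rw [e5, e6, hn] at h1
  have e7 : (q / v) ^ k * v ^ (k + r + G.length * A.cnt) =
      q ^ k * (v ^ r * v ^ (G.length * A.cnt)) := by
    rw [pow_add, pow_add, div_pow]
    field_simp
  have e8 : (q / w) ^ k * w ^ (k + r) = q ^ k * w ^ r := by
    rw [pow_add, div_pow]
    field_simp
  rw [e7, e8] at h1
  have hqk : q ^ k ≠ 0 := pow_ne_zero _ hq
  have h3 : v ^ r * v ^ (G.length * A.cnt) * tutte (red A G) (1 + q / v) (1 + v) =
      A.fac q v ^ G.length * (w ^ r * tutte G (1 + q / w) (1 + w)) := by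
    apply mul_left_cancel₀ hqk
    linear_combination h1
  have h4 : v ^ r * v ^ (G.length * A.cnt) ≠ 0 := mul_ne_zero (pow_ne_zero _ hv)
    (pow_ne_zero _ hv)
  apply mul_left_cancel₀ h4
  rw [h3, div_pow, div_pow, ← pow_mul, mul_comm A.cnt]
  field_simp

end Pool.Agent.TutteHard
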