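import Pool.Agent.Lib_helper88.TutteHard.RedPT
import Pool.Agent.Lib_helper88.TutteHard.Escape
import Pool.Agent.Lib_helper88.PolyTime.Simulate

/-!
# From an approximation scheme to the sign at another point
-/

set_option autoImplicit false

namespace Pool.Agent.TutteHard

open Pool.Agent.PT

/-- the sign of `T(·; x, y)` is computed by a polynomial-time randomised algorithm, with
probability at least `3/4` on every multigraph -/
def HasRandSign (x y : ℝ) : Prop :=
  ∃ (B : MGraph × List Bool → ℤ) (p : Polynomial ℕ), N68a2faeb.IsPolyTime B ∧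
    ∀ G : MGraph, 3 / 4 ≤ prob (p.eval (size G)) (fun r =>
      ((B (G, r) : ℤ) : ℝ) = Real.sign (tutte G x y))

theorem prob_congr {n : ℕ} {P Q : List Bool → Prop} (h : ∀ r, P r ↔ Q r) : prob n P = prob n Q := by
  have : P = Q := funext fun r => propext (h r)
  rw [this]

theorem prob_mono {n : ℕ} {P Q : List Bool → Prop} (h : ∀ r, P r → Q r) :
    prob n P ≤ prob n Q := by
  unfold prob
  apply div_le_div_of_nonneg_right _ (by positivity)
  have : Nat.card {r : Fin n → Bool // P (List.ofFn r)} ≤
      Nat.card {r : Fin n → Bool // Q (List.ofFn r)} :=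
    Nat.card_le_card_of_injective (fun r => ⟨r.1, h _ r.2⟩) (by
      intro a b hab
      simp only [Subtype.mk.injEq] at hab
      exact Subtype.ext hab)
  exact_mod_cast this

/-- only a prefix of the random string is used -/
theorem prob_take {n m : ℕ} (h : n ≤ m) (P : List Bool → Prop) :
    prob m (fun r => P (r.take n)) = prob n P := by
  obtain ⟨k, rfl⟩ := Nat.exists_eq_add_of_le h
  unfold prob
  have e1 : {r : Fin (n + k) → Bool // P ((List.ofFn r).take n)} ≃
      {a : Fin n → Bool // P (List.ofFn a)} × (Fin k → Bool) :=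
    ((Fin.appendEquiv n k).symm.subtypeEquiv (q := fun ab : (Fin n → Bool) × (Fin k → Bool) =>
      P (List.ofFn ab.1)) (by
        intro r
        obtain ⟨ab, rfl⟩ := (Fin.appendEquiv n k).surjective r
        rw [Equiv.symm_apply_apply]
        have : List.ofFn ((Fin.appendEquiv n k) ab) = List.ofFn ab.1 ++ List.ofFn ab.2 :=
          List.ofFn_fin_append _ _
        rw [this, List.take_left' (by simp)])).trans
      { toFun := fun x => (⟨x.1.1, x.2⟩, x.1.2)
        invFun := fun x => ⟨(x.1.1, x.2), x.1.2⟩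
        left_inv := fun _ => rfl
        right_inv := fun _ => rfl }
  rw [Nat.card_congr e1, Nat.card_prod]
  have e2 : Nat.card (Fin k → Bool) = 2 ^ k := by
    rw [Nat.card_eq_fintype_card]
    simp
  rw [e2, pow_add]
  push_cast
  field_simp

/-- a number within a positive factor has the same sign -/
theorem sign_of_mem {a T ε : ℝ} (h : a ∈ Set.uIcc (Real.exp (-ε) * T) (Real.exp ε * T)) :
    Real.sign a = Real.sign T := by
  have h1 := Real.exp_pos (-ε)
  have h2 := Real.exp_pos ε
  rw [Set.mem_uIcc] at h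
  rcases lt_trichotomy T 0 with hT | hT | hT
  · have h3 := mul_neg_of_pos_of_neg h1 hT
    have h4 := mul_neg_of_pos_of_neg h2 hT
    rw [Real.sign_of_neg hT, Real.sign_of_neg (by rcases h with h | h <;> linarith)]
  · subst hT
    simp only [mul_zero] at h
    rw [show a = 0 by rcases h with h | h <;> linarith]
  · have h3 := mul_pos h1 hT
    have h4 := mul_pos h2 hT
    rw [Real.sign_of_pos hT, Real.sign_of_pos (by rcases h with h | h <;> linarith)]

theorem sign_rat (a : ℚ) : ((Int.sign a.num : ℤ) : ℝ) = Real.sign (a : ℝ) := by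
  rcases lt_trichotomy a 0 with h | h | h
  · rw [Real.sign_of_neg (by exact_mod_cast h), Int.sign_eq_neg_one_of_neg (Rat.num_neg.2 h)]
    norm_num
  · subst h
    simp
  · rw [Real.sign_of_pos (by exact_mod_cast h), Int.sign_eq_one_of_pos (Rat.num_pos.2 h)]
    norm_num

theorem sign_mul_pos {a b : ℝ} (ha : 0 < a) : Real.sign (a * b) = Real.sign b := by
  rcases lt_trichotomy b 0 with hb | hb | hb
  · rw [Real.sign_of_neg hb, Real.sign_of_neg (mul_neg_of_pos_of_neg ha hb)]
  · rw [hb, mul_zero]
  · rw [Real.sign_of_pos hb, Real.sign_of_pos (mul_pos ha hb)]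

theorem sign_mul_neg {a b : ℝ} (ha : a < 0) : Real.sign (a * b) = -Real.sign b := by
  rcases lt_trichotomy b 0 with hb | hb | hb
  · rw [Real.sign_of_neg hb, Real.sign_of_pos (mul_pos_of_neg_of_neg ha hb), neg_neg]
  · rw [hb, mul_zero, Real.sign_zero, neg_zero]
  · rw [Real.sign_of_pos hb, Real.sign_of_neg (mul_neg_of_neg_of_pos ha hb)]

theorem PT.of_enc_eq' {α β γ : Type} [N487b59b3 α] [N487b59b3 β] [N487b59b3 γ] {g : α → β}
    {h : α → γ} (hg : PT g) (e : ∀ a, enc (h a) = enc (g a)) : PT h := by
  obtain ⟨c, p, hc⟩ := hg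
  exact ⟨c, p, fun a => by rw [e a]; exact hc a⟩

theorem PT.intNeg {α : Type} [N487b59b3 α] {f : α → ℤ} (hf : PT f) : PT (fun a => -(f a)) := by
  have h1 := hf.intParts.comp_snd.pair hf.intParts.comp_fst
  refine PT.of_enc_eq' h1 fun a => ?_
  have : enc (-(f a)) = enc ((-(f a)).toNat, (-(-(f a))).toNat) := rfl
  rw [this, neg_neg]

/-- an approximation scheme gives the sign -/
theorem HasFPRAS.randSign {x y : ℝ} (hF : HasFPRAS x y) : HasRandSign x y := by
  obtain ⟨A, p, hA, hprob⟩ := hF
  have hA' : PT A := PT.of_isPolyTime hA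
  have hs : PT (fun z : MGraph × List Bool => Int.sign (A ((z.1, []), z.2)).num) :=
    (hA'.comp ((PT.fst.pair (PT.const [])).pair PT.snd)).ratSign
  refine ⟨_, p.comp (2 * Polynomial.X + 1), hs.isPolyTime, fun G => ?_⟩
  have h1 : size (G, ([] : List Bool)) = 2 * size G + 1 + 0 := length_enc_pair _ _
  have h2 := hprob G []
  rw [h1] at h2
  rw [Polynomial.eval_comp]
  simp only [Polynomial.eval_add, Polynomial.eval_mul, Polynomial.eval_ofNat,
    Polynomial.eval_one, Polynomial.eval_X]
  refine h2.trans (prob_mono fun r hr => ?_)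
  rw [sign_rat, sign_of_mem hr]

/-- an exact reduction with explicit factors transfers randomised algorithms for the sign -/
theorem randSign_of_red {x y x' y' c l : ℝ} {f : MGraph → MGraph} (hf : PT f) (hc : c ≠ 0)
    (hl : 0 < l)
    (h : ∀ G, tutte (f G) x y = c ^ G.length * l ^ rank G Finset.univ * tutte G x' y')
    (hF : HasRandSign x y) : HasRandSign x' y' := by
  classical
  obtain ⟨A, p, hA, hprob⟩ := hF
  have hA' : PT A := PT.of_isPolyTime hA
  obtain ⟨Q, hQ⟩ := hf.length_bound
  -- the algorithm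
  have hH : PT (fun z : MGraph × List Bool => f z.1) := hf.comp PT.fst
  have hn : PT (fun z : MGraph × List Bool => U.mk (p.eval (enc (f z.1)).length)) :=
    (PT.encLen.comp hH).poly p
  have hr : PT (fun z : MGraph × List Bool => z.2.take (p.eval (enc (f z.1)).length)) :=
    PT.take PT.snd hn
  have hs : PT (fun z : MGraph × List Bool =>
      A (f z.1, z.2.take (p.eval (enc (f z.1)).length))) := hA'.comp (hH.pair hr)
  have hb : PT (fun z : MGraph × List Bool => decide (c < 0) && decide (z.1.length % 2 = 1)) :=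
    (PT.const (decide (c < 0))).and (PT.length PT.fst).uodd
  have hB := PT.ite hb (PT.intNeg hs) hs
  refine ⟨_, p.comp Q, hB.isPolyTime, fun G => ?_⟩
  have hle : p.eval (size (f G)) ≤ (p.comp Q).eval (size G) := by
    rw [Polynomial.eval_comp]
    exact poly_mono p (hQ G)
  have h1 := hprob (f G)
  rw [← prob_take hle] at h1
  refine h1.trans (prob_mono fun r h2 => ?_)
  simp only
  change (((if (decide (c < 0) && decide (G.length % 2 = 1)) = true then
    -A (f G, r.take (p.eval (size (f G)))) else
    A (f G, r.take (p.eval (size (f G)))) : ℤ)) : ℝ) = _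
  have hlr : 0 < l ^ rank G Finset.univ := pow_pos hl _
  rw [h G, mul_assoc] at h2
  by_cases hcn : c < 0
  · by_cases hodd : G.length % 2 = 1
    · have hneg : c ^ G.length < 0 := Odd.pow_neg (Nat.odd_iff.2 hodd) hcn
      rw [sign_mul_neg hneg, sign_mul_pos hlr] at h2
      simp only [hcn, hodd, decide_true, Bool.and_self, if_true]
      push_cast
      rw [h2, neg_neg]
    · have hpos : 0 < c ^ G.length := Even.pow_pos (Nat.even_iff.2 (by omega)) hc
      rw [sign_mul_pos hpos, sign_mul_pos hlr] at h2
      simp only [hcn, hodd, decide_true, decide_false, Bool.and_false, Bool.false_eq_true,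
        if_false]
      exact h2
  · have hpos : 0 < c ^ G.length := pow_pos (lt_of_le_of_ne (not_lt.1 hcn) hc.symm) _
    rw [sign_mul_pos hpos, sign_mul_pos hlr] at h2
    simp only [hcn, decide_false, Bool.false_and, Bool.false_eq_true, if_false]
    exact h2

theorem SP.fac_ne_zero {q v : ℝ} (A : SP) (h : A.ok q v) : A.fac q v ≠ 0 := by
  induction A with
  | edge => exact one_ne_zero
  | par A B ihA ihB => exact mul_ne_zero (ihA h.1) (ihB h.2)
  | ser A B ihA ihB => exact mul_ne_zero (mul_ne_zero (ihA h.1) (ihB h.2.1)) h.2.2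

/-- the nonzero weights of the series-parallel networks -/
theorem closed_wt (q v : ℝ) : Closed q {w | w ≠ 0 ∧ ∃ A : SP, A.ok q v ∧ A.wt q v = w} where
  ne := fun a ha => ha.1
  par := by
    rintro a ⟨_, A, hA, rfl⟩ b ⟨_, B, hB, rfl⟩ h0
    exact ⟨h0, .par A B, ⟨hA, hB⟩, rfl⟩
  ser := by
    rintro a ⟨ha, A, hA, rfl⟩ b ⟨hb, B, hB, rfl⟩ h0
    exact ⟨div_ne_zero (mul_ne_zero ha hb) h0, .ser A B, ⟨hA, hB, h0⟩, rfl⟩

end Pool.Agent.TutteHard
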